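import Pool.Agent.Lib.H7HG.D

/-! # H7HG, chunk A1a: symmetry of mp -/

set_option autoImplicit false

namespace H7HG

open Finset Equiv Pool.Agent.H69Hopf


theorem a1a_fst_inj {n : ℕ} : Function.Injective (fst : Fin n → Fin (2 * n)) := by
  intro i j h
  have h1 := congrArg Fin.val h
  simp only [fst] at h1
  exact Fin.ext (by omega)

theorem a1a_snd_inj {n : ℕ} : Function.Injective (snd : Fin n → Fin (2 * n)) := by
  intro i j h
  have h1 := congrArg Fin.val h
  simp only [snd] at h1
  exact Fin.ext (by omega)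

theorem a1a_fst_ne_snd {n : ℕ} (i j : Fin n) : (fst i : Fin (2 * n)) ≠ snd j := by
  intro h
  have h1 := congrArg Fin.val h
  simp only [fst, snd] at h1
  omega



/-- PROOF: `Equiv.sum_comp (Equiv.mulRight π)` with `π` the product of the two commuting swaps of `fst s, fst t` and of
`snd s, snd t` (sign `1`), and `Equiv.prod_comp (swap s t)`. -/
theorem mp_swap {n : ℕ} (f : Fin n → Fin (2 * n) → Fin (2 * n) → ℝ) (s t : Fin n) :
    mp (fun i => f (swap s t i)) = mp f := by
  set π : Perm (Fin (2 * n)) := swap (fst s) (fst t) * swap (snd s) (snd t) with hπ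
  have hsign : Perm.sign π = 1 := by
    rcases eq_or_ne s t with rfl | h
    · rw [hπ, swap_self, swap_self]
      exact Perm.sign_one
    · rw [hπ, Perm.sign_mul, Perm.sign_swap (a1a_fst_inj.ne h), Perm.sign_swap (a1a_snd_inj.ne h)]
      rfl
  have hf : ∀ i, π (fst i) = fst (swap s t i) := by
    intro i
    rw [hπ, Perm.mul_apply, swap_apply_of_ne_of_ne (a1a_fst_ne_snd _ _) (a1a_fst_ne_snd _ _),
      a1a_fst_inj.swap_apply]
  have hs : ∀ i, π (snd i) = snd (swap s t i) := by
    intro i
    rw [hπ, Perm.mul_apply, a1a_snd_inj.swap_apply,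
      swap_apply_of_ne_of_ne (a1a_fst_ne_snd _ _).symm (a1a_fst_ne_snd _ _).symm]
  unfold mp
  rw [← Equiv.sum_comp (Equiv.mulRight π) (fun σ : Perm (Fin (2 * n)) =>
    ((Perm.sign σ : ℤ) : ℝ) * ∏ i, f i (σ (fst i)) (σ (snd i)))]
  refine Finset.sum_congr rfl fun σ _ => ?_
  simp only [Equiv.coe_mulRight, Perm.sign_mul, hsign, mul_one, Perm.mul_apply, hf, hs]
  congr 1
  rw [← Equiv.prod_comp (swap s t) (fun i => f i (σ (fst (swap s t i))) (σ (snd (swap s t i))))]
  refine Finset.prod_congr rfl fun i _ => ?_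
  rw [swap_apply_self]

end H7HG
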