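import Pool.Agent.Lib.H7HG.D

/-! # H7HG, chunk A2a: change of basis -/

set_option autoImplicit false

namespace H7HG

open Finset Equiv Pool.Agent.H69Hopf

private theorem vv_add1 {N : ℕ} (f : Fin N → Fin N → ℝ) (x x' y : Fin N → ℝ) :
    vv f (x + x') y = vv f x y + vv f x' y := by
  unfold vv
  rw [← Finset.sum_add_distrib]
  refine Finset.sum_congr rfl fun i _ => ?_
  rw [← Finset.sum_add_distrib]
  refine Finset.sum_congr rfl fun j _ => ?_
  rw [Pi.add_apply]
  ring

private theorem vv_add2 {N : ℕ} (f : Fin N → Fin N → ℝ) (x y y' : Fin N → ℝ) :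
    vv f x (y + y') = vv f x y + vv f x y' := by
  unfold vv
  rw [← Finset.sum_add_distrib]
  refine Finset.sum_congr rfl fun i _ => ?_
  rw [← Finset.sum_add_distrib]
  refine Finset.sum_congr rfl fun j _ => ?_
  rw [Pi.add_apply]
  ring

private theorem vv_smul1 {N : ℕ} (f : Fin N → Fin N → ℝ) (c : ℝ) (x y : Fin N → ℝ) :
    vv f (c • x) y = c * vv f x y := by
  unfold vv
  rw [Finset.mul_sum]
  refine Finset.sum_congr rfl fun i _ => ?_
  rw [Finset.mul_sum]
  refine Finset.sum_congr rfl fun j _ => ?_
  rw [Pi.smul_apply, smul_eq_mul]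
  ring

private theorem vv_smul2 {N : ℕ} (f : Fin N → Fin N → ℝ) (c : ℝ) (x y : Fin N → ℝ) :
    vv f x (c • y) = c * vv f x y := by
  unfold vv
  rw [Finset.mul_sum]
  refine Finset.sum_congr rfl fun i _ => ?_
  rw [Finset.mul_sum]
  refine Finset.sum_congr rfl fun j _ => ?_
  rw [Pi.smul_apply, smul_eq_mul]
  ring

private theorem vv_single {N : ℕ} (f : Fin N → Fin N → ℝ) (i j : Fin N) :
    vv f (Pi.single i 1) (Pi.single j 1) = f i j := by
  unfold vv
  rw [Finset.sum_eq_single i, Finset.sum_eq_single j]
  · simp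
  · intro b _ hb; simp [Pi.single_apply, hb]
  · simp
  · intro b _ hb; simp [Pi.single_apply, hb]
  · simp

private theorem prod_split {n : ℕ} (f : Fin n → Fin (2 * n) → Fin (2 * n) → ℝ) (a : Fin (2 * n) → (Fin (2 * n) → ℝ))
    (i : Fin n) : ∏ j, vv (f j) (a (fst j)) (a (snd j)) = vv (f i) (a (fst i)) (a (snd i)) *
      ∏ j ∈ Finset.univ.erase i, vv (f j) (a (fst j)) (a (snd j)) :=
  (Finset.mul_prod_erase Finset.univ (fun j => vv (f j) (a (fst j)) (a (snd j))) (Finset.mem_univ i)).symm

private theorem rest_update {n : ℕ} [DecidableEq (Fin (2 * n))] (f : Fin n → Fin (2 * n) → Fin (2 * n) → ℝ)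
    (a : Fin (2 * n) → (Fin (2 * n) → ℝ)) (i : Fin n) (x : Fin (2 * n) → ℝ) (r : Fin (2 * n))
    (hr : r = fst i ∨ r = snd i) :
    (∏ j ∈ Finset.univ.erase i, vv (f j) (Function.update a r x (fst j)) (Function.update a r x (snd j))) =
    ∏ j ∈ Finset.univ.erase i, vv (f j) (a (fst j)) (a (snd j)) := by
  refine Finset.prod_congr rfl fun j hj => ?_
  have hji : j ≠ i := Finset.ne_of_mem_erase hj
  have h1 : fst j ≠ r := by
    rcases hr with rfl | rfl
    · exact fun h => hji (fst_inj.1 h)
    · exact fst_ne_snd j i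
  have h2 : snd j ≠ r := by
    rcases hr with rfl | rfl
    · exact fun h => fst_ne_snd i j h.symm
    · exact fun h => hji (snd_inj.1 h)
  rw [Function.update_of_ne h1, Function.update_of_ne h2]

private noncomputable def ml {n : ℕ} (f : Fin n → Fin (2 * n) → Fin (2 * n) → ℝ) :
    MultilinearMap ℝ (fun _ : Fin (2 * n) => (Fin (2 * n) → ℝ)) ℝ where
  toFun a := ∏ i, vv (f i) (a (fst i)) (a (snd i))
  map_update_add' := by
    intro inst a r x y
    obtain ⟨i, hi⟩ := exists_fst_or_snd r
    rw [prod_split _ _ i, prod_split _ _ i, prod_split _ _ i, rest_update f a i _ r hi,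
      rest_update f a i _ r hi, rest_update f a i _ r hi, ← add_mul]
    congr 1
    rcases hi with rfl | rfl
    · have h := (fst_ne_snd i i).symm
      rw [Function.update_self, Function.update_self, Function.update_self,
        Function.update_of_ne h, Function.update_of_ne h, Function.update_of_ne h, vv_add1]
    · have h := fst_ne_snd i i
      rw [Function.update_self, Function.update_self, Function.update_self,
        Function.update_of_ne h, Function.update_of_ne h, Function.update_of_ne h, vv_add2]
  map_update_smul' := by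
    intro inst a r c x
    obtain ⟨i, hi⟩ := exists_fst_or_snd r
    rw [prod_split _ _ i, prod_split _ _ i, rest_update f a i _ r hi,
      rest_update f a i _ r hi, smul_eq_mul, ← mul_assoc]
    congr 1
    rcases hi with rfl | rfl
    · have h := (fst_ne_snd i i).symm
      rw [Function.update_self, Function.update_self,
        Function.update_of_ne h, Function.update_of_ne h, vv_smul1]
    · have h := fst_ne_snd i i
      rw [Function.update_self, Function.update_self,
        Function.update_of_ne h, Function.update_of_ne h, vv_smul2]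

/-- PROOF: expand the product of sums: `∏ i, Σ_a Σ_b f i a b * E a (σ fst i) * E b (σ snd i)` = sum over all functions
`φ : Fin (2 n) → Fin (2 n)` (a at the places `fst i`, b at the places `snd i`) of
`(∏ i, f i (φ (fst i)) (φ (snd i))) * ∏ r, E (φ r) (σ r)`; exchange the sums; `Σ_σ sign σ ∏_r E (φ r) (σ r)` is the
determinant of the matrix with rows `E (φ r)`: `0` if `φ` is not injective (two equal rows), `sign φ * det E` otherwise.
Compare the proof of `gb_frameR` (Lib/H46X/B3.lean and the files it imports), which does the same for the integrand. -/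
theorem mp_tr {n : ℕ} (E : Matrix (Fin (2 * n)) (Fin (2 * n)) ℝ) (f : Fin n → Fin (2 * n) → Fin (2 * n) → ℝ) :
    mp (fun i => tr E (f i)) = E.det * mp f := by
  have h := alt_det (ml f) (fun i a => E a i)
  have h1 : (Matrix.of (fun i a => E a i)) = E.transpose := rfl
  rw [h1, Matrix.det_transpose] at h
  have h2 : mp (fun i => tr E (f i)) = ∑ σ : Perm (Fin (2 * n)), ((Perm.sign σ : ℤ) : ℝ) *
      ml f (fun i a => E a (σ i)) := rfl
  have h3 : mp f = ∑ σ : Perm (Fin (2 * n)), ((Perm.sign σ : ℤ) : ℝ) *
      ml f (fun i => Pi.single (σ i) 1) := by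
    unfold mp
    refine Finset.sum_congr rfl fun σ _ => ?_
    congr 1
    refine Finset.prod_congr rfl fun i _ => (vv_single _ _ _).symm
  rw [h2, h3]
  exact h

end H7HG
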