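import Pool.Agent.Lib.H7HG.D

/-! # H7HG, chunk A2b: the adapted basis matrix -/

set_option autoImplicit false

namespace H7HG

open Finset Equiv Pool.Agent.H69Hopf

/-- The basis `x = e_p + u`, `y = e_q + v`, the other vectors unchanged. -/
def EE {N : ℕ} (p q : Fin N) (u v : Fin N → ℝ) : Matrix (Fin N) (Fin N) ℝ := fun a i =>
  (if a = i then 1 else 0) + (if i = p then u a else 0) + (if i = q then v a else 0)

theorem det_EE {N : ℕ} {p q : Fin N} (hpq : p ≠ q) {u v : Fin N → ℝ} (hu : u p = 0) (hu' : u q = 0) (hv : v p = 0)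
    (hv' : v q = 0) : (EE p q u v).det = 1 := by
  have _h := hpq
  set A : Matrix (Fin N) (Fin 2) ℝ := fun a k => if k = 0 then u a else v a with hA
  set C : Matrix (Fin 2) (Fin N) ℝ := fun k i => if k = 0 then (if i = p then 1 else 0) else (if i = q then 1 else 0)
    with hC
  have h1 : EE p q u v = 1 + A * C := by
    ext a i
    simp only [EE, Matrix.add_apply, Matrix.one_apply, Matrix.mul_apply, Fin.sum_univ_two, hA, hC]
    by_cases h1 : i = p <;> by_cases h2 : i = q <;> simp [h1, h2] <;> ring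
  have h2 : C * A = 0 := by
    ext k l
    simp only [Matrix.mul_apply, Matrix.zero_apply, hA, hC]
    fin_cases k <;> fin_cases l <;> simp [hu, hu', hv, hv']
  rw [h1, Matrix.det_one_add_mul_comm, h2, add_zero, Matrix.det_one]

theorem EE_p {N : ℕ} {p q : Fin N} (hpq : p ≠ q) (u v : Fin N → ℝ) (a : Fin N) :
    EE p q u v a p = (Pi.single p 1 + u : Fin N → ℝ) a := by
  simp [EE, hpq, Pi.single_apply]

theorem EE_q {N : ℕ} {p q : Fin N} (hpq : p ≠ q) (u v : Fin N → ℝ) (a : Fin N) :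
    EE p q u v a q = (Pi.single q 1 + v : Fin N → ℝ) a := by
  simp [EE, hpq.symm, Pi.single_apply]

theorem EE_c {N : ℕ} {p q : Fin N} (u v : Fin N → ℝ) {c : Fin N} (hc : c ≠ p) (hc' : c ≠ q) (a : Fin N) :
    EE p q u v a c = (Pi.single c 1 : Fin N → ℝ) a := by
  simp [EE, hc, hc', Pi.single_apply]

theorem EE_rp {N : ℕ} {p q : Fin N} {u v : Fin N → ℝ} (hu : u p = 0) (hv : v p = 0) (i : Fin N) :
    EE p q u v p i = if i = p then 1 else 0 := by
  simp [EE, hu, hv, eq_comm]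

theorem EE_rq {N : ℕ} {p q : Fin N} {u v : Fin N → ℝ} (hu' : u q = 0) (hv' : v q = 0) (i : Fin N) :
    EE p q u v q i = if i = q then 1 else 0 := by
  simp [EE, hu', hv', eq_comm]

/-- The forms in the new basis: `tr (EE ..) f` at `p, q` is `f (e_p + u, e_q + v)`. -/
theorem tr_pq {N : ℕ} {p q : Fin N} (hpq : p ≠ q) {u v : Fin N → ℝ} (hu' : u q = 0) (hv : v p = 0)
    (f : Fin N → Fin N → ℝ) : tr (EE p q u v) f p q = vv f (Pi.single p 1 + u) (Pi.single q 1 + v) := by
  have _h1 := hu'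
  have _h2 := hv
  simp only [tr, vv, EE_p hpq, EE_q hpq]

theorem tr_pc {N : ℕ} {p q : Fin N} {u v : Fin N → ℝ} (f : Fin N → Fin N → ℝ) {c : Fin N} (hpq : p ≠ q) (hc : c ≠ p)
    (hc' : c ≠ q) : tr (EE p q u v) f p c = vv f (Pi.single p 1 + u) (Pi.single c 1) := by
  simp only [tr, vv, EE_p hpq, EE_c u v hc hc']

theorem tr_qc {N : ℕ} {p q : Fin N} {u v : Fin N → ℝ} (f : Fin N → Fin N → ℝ) {c : Fin N} (hpq : p ≠ q) (hc : c ≠ p)
    (hc' : c ≠ q) : tr (EE p q u v) f q c = vv f (Pi.single q 1 + v) (Pi.single c 1) := by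
  simp only [tr, vv, EE_q hpq, EE_c u v hc hc']

theorem rs_tr {N : ℕ} {p q : Fin N} {u v : Fin N → ℝ} (f : Fin N → Fin N → ℝ) :
    rs p q (tr (EE p q u v) f) = rs p q f := by
  funext i j
  unfold rs
  split_ifs with h
  · rfl
  · push Not at h
    obtain ⟨h1, h2, h3, h4⟩ := h
    simp only [tr, EE_c u v h1 h2, EE_c u v h3 h4, Pi.single_apply, mul_ite, mul_one, mul_zero, ite_mul, zero_mul,
      Finset.sum_ite_eq', Finset.mem_univ, if_true]

theorem vv_mm_gen {N : ℕ} (p q : Fin N) (x y : Fin N → ℝ) : vv (mm p q) x y = x p * y q - x q * y p := by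
  have h : ∀ i j, mm p q i j * x i * y j =
      (if i = p then x i else 0) * (if j = q then y j else 0) - (if i = q then x i else 0) * (if j = p then y j else 0) := by
    intro i j
    unfold mm
    split_ifs <;> ring
  simp only [vv, h, Finset.sum_sub_distrib, ← Finset.mul_sum, ← Finset.sum_mul]
  simp

/-- The skew form `m` does not change: `m (e_p + u, e_q + v) = 1`, `m (e_p + u, e_c) = 0`. -/
theorem tr_mm {N : ℕ} {p q : Fin N} (hpq : p ≠ q) {u v : Fin N → ℝ} (hu : u p = 0) (hu' : u q = 0) (hv : v p = 0)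
    (hv' : v q = 0) : tr (EE p q u v) (mm p q) = mm p q := by
  have _h := hpq
  funext i j
  have h : tr (EE p q u v) (mm p q) i j = vv (mm p q) (fun a => EE p q u v a i) (fun b => EE p q u v b j) := rfl
  rw [h, vv_mm_gen, EE_rp hu hv, EE_rq hu' hv', EE_rq hu' hv', EE_rp hu hv]
  unfold mm
  ring

theorem tr_skew {N : ℕ} (E : Matrix (Fin N) (Fin N) ℝ) {f : Fin N → Fin N → ℝ} (h : ∀ i j, f i j = - f j i)
    (i j : Fin N) : tr E f i j = - tr E f j i := by
  unfold tr
  rw [Finset.sum_comm, ← Finset.sum_neg_distrib]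
  refine Finset.sum_congr rfl fun a _ => ?_
  rw [← Finset.sum_neg_distrib]
  refine Finset.sum_congr rfl fun b _ => ?_
  rw [h b a]
  ring

/-- The value of `m` at `x = e_p + u`, `y = e_q + v`. -/
theorem vv_mm {N : ℕ} {p q : Fin N} (hpq : p ≠ q) {u v : Fin N → ℝ} (hu : u p = 0) (hu' : u q = 0) (hv : v p = 0)
    (hv' : v q = 0) : vv (mm p q) (Pi.single p 1 + u) (Pi.single q 1 + v) = 1 := by
  rw [vv_mm_gen]
  simp [hu, hu', hv, hv', hpq, hpq.symm]

end H7HG
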