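import Pool.Agent.Lib.H7HG.A3a

/-! # H7HG, chunk A3b: counting -/

set_option autoImplicit false

namespace H7HG

open Finset Equiv Pool.Agent.H69Hopf

variable {n : ℕ} {ι : Type} {w : ι → Fin (2 * n) → Fin (2 * n) → ℝ} {p q : Fin (2 * n)}
  {bk : Fin (2 * n) → ℕ} {bl : ι → ℕ}

/-- COUNTING. PROOF: take `σ` from `exists_perm`. Every `u` in the block `j` is `σ r` with `r = fst s` or `r = snd s`
(`exists_fst_or_snd`), `s ≠ i` because `u ≠ p, q`, and `bl (κ s) = bk u = j` (`supp`); conversely for `s ≠ i` with
`bl (κ s) = j` both `σ (fst s)` and `σ (snd s)` are in the block. So the block is the disjoint union of the images of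
`{s | s ≠ i ∧ bl (κ s) = j}` under `σ ∘ fst` and `σ ∘ snd`. -/
theorem card_block (h : Blk w p q bk bl) {i : Fin n} {κ : Fin n → ι} (hne : hh w p q i κ ≠ 0) (j : ℕ) :
    (B p q bk j).card = 2 * (univ.filter fun s => s ≠ i ∧ bl (κ s) = j).card := by
  classical
  obtain ⟨σ, hi, hs⟩ := exists_perm h hne
  set S : Finset (Fin n) := univ.filter fun s => s ≠ i ∧ bl (κ s) = j with hS
  have e : B p q bk j = S.image (fun s => σ (fst s)) ∪ S.image (fun s => σ (snd s)) := by
    ext u
    constructor
    · intro hu
      rw [B, mem_filter] at hu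
      obtain ⟨-, hup, huq, huj⟩ := hu
      obtain ⟨s, hr⟩ := exists_fst_or_snd (σ.symm u)
      have hsi : s ≠ i := by
        rintro rfl
        rcases hr with hr | hr
        · have hu : u = σ (fst s) := by rw [← hr, Equiv.apply_symm_apply]
          rcases hi with ⟨h1, h2⟩ | ⟨h1, h2⟩
          · exact hup (hu.trans h1)
          · exact huq (hu.trans h1)
        · have hu : u = σ (snd s) := by rw [← hr, Equiv.apply_symm_apply]
          rcases hi with ⟨h1, h2⟩ | ⟨h1, h2⟩
          · exact huq (hu.trans h2)
          · exact hup (hu.trans h2)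
      have hsup := h.supp (κ s) _ _ (hs s hsi)
      rw [mem_union]
      rcases hr with hr | hr
      · have hu : σ (fst s) = u := by rw [← hr, Equiv.apply_symm_apply]
        left
        rw [mem_image]
        refine ⟨s, ?_, hu⟩
        rw [hS, mem_filter]
        refine ⟨mem_univ _, hsi, ?_⟩
        rw [← hsup.1, hu, huj]
      · have hu : σ (snd s) = u := by rw [← hr, Equiv.apply_symm_apply]
        right
        rw [mem_image]
        refine ⟨s, ?_, hu⟩
        rw [hS, mem_filter]
        refine ⟨mem_univ _, hsi, ?_⟩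
        rw [← hsup.2, hu, huj]
    · intro hu
      rw [B, mem_filter]
      rw [mem_union] at hu
      rcases hu with hu | hu
      · rw [mem_image] at hu
        obtain ⟨s, hsS, rfl⟩ := hu
        rw [hS, mem_filter] at hsS
        obtain ⟨-, hsi, hsj⟩ := hsS
        have h1 := rs_ne (hs s hsi)
        have h2 := h.supp (κ s) _ _ (hs s hsi)
        exact ⟨mem_univ _, h1.1, h1.2.1, by rw [h2.1, hsj]⟩
      · rw [mem_image] at hu
        obtain ⟨s, hsS, rfl⟩ := hu
        rw [hS, mem_filter] at hsS
        obtain ⟨-, hsi, hsj⟩ := hsS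
        have h1 := rs_ne (hs s hsi)
        have h2 := h.supp (κ s) _ _ (hs s hsi)
        exact ⟨mem_univ _, h1.2.2.1, h1.2.2.2.1, by rw [h2.2, hsj]⟩
  rw [e, card_union_of_disjoint, card_image_of_injective, card_image_of_injective, two_mul]
  · intro a b hab
    exact snd_inj.1 (σ.injective hab)
  · intro a b hab
    exact fst_inj.1 (σ.injective hab)
  · rw [disjoint_left]
    intro u h1 h2
    rw [mem_image] at h1 h2
    obtain ⟨a, -, ha⟩ := h1
    obtain ⟨b, -, hb⟩ := h2
    exact fst_ne_snd a b (σ.injective (ha.trans hb.symm))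

end H7HG
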