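import Pool.Agent.Lib.H7HG.A3c

/-! # H7HG, chunk A4: only terms with a slot p, q -/

set_option autoImplicit false

namespace H7HG

open Finset Equiv Pool.Agent.H69Hopf

variable {n : ℕ} {ι : Type} {w : ι → Fin (2 * n) → Fin (2 * n) → ℝ} {p q : Fin (2 * n)}
  {bk : Fin (2 * n) → ℕ} {bl : ι → ℕ}

/-- The adapted basis: for every slot `s ≠ i` the form `w (κ s)` vanishes at `(e_p, e_c)` and `(e_q, e_c)`, `c` in the
block of `κ s`. -/
def Ad (w : ι → Fin (2 * n) → Fin (2 * n) → ℝ) (p q : Fin (2 * n)) (bk : Fin (2 * n) → ℕ) (bl : ι → ℕ) (i : Fin n)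
    (κ : Fin n → ι) : Prop :=
  ∀ s, s ≠ i → ∀ c, c ≠ p → c ≠ q → bk c = bl (κ s) → w (κ s) p c = 0 ∧ w (κ s) q c = 0

private theorem A4_sum_slots {n : ℕ} (g : Fin (2 * n) → ℕ) : ∑ r, g r = ∑ s : Fin n, (g (fst s) + g (snd s)) := by
  let f : Fin n × Bool → Fin (2 * n) := fun x => if x.2 then snd x.1 else fst x.1
  have hf : Function.Bijective f := by
    constructor
    · rintro ⟨s, b⟩ ⟨t, c⟩ hst
      cases b <;> cases c
      · simp only [f, Bool.false_eq_true, if_false] at hst
        rw [fst_inj.1 hst]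
      · simp only [f, Bool.false_eq_true, if_false, if_true] at hst
        exact absurd hst (fst_ne_snd s t)
      · simp only [f, Bool.false_eq_true, if_false, if_true] at hst
        exact absurd hst.symm (fst_ne_snd t s)
      · simp only [f, if_true] at hst
        rw [snd_inj.1 hst]
    · intro r
      obtain ⟨s, hs | hs⟩ := exists_fst_or_snd r
      · exact ⟨(s, false), by simp [f, hs]⟩
      · exact ⟨(s, true), by simp [f, hs]⟩
  rw [← Equiv.sum_comp (Equiv.ofBijective f hf) g, Fintype.sum_prod_type]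
  refine Finset.sum_congr rfl fun s _ => ?_
  rw [Fintype.sum_bool]
  simp only [Equiv.ofBijective_apply, f, if_true, Bool.false_eq_true, if_false]
  exact Nat.add_comm _ _

private theorem A4_card {N : ℕ} (p q : Fin N) (bk : Fin N → ℕ) (j : ℕ) (σ : Perm (Fin N)) :
    (B p q bk j).card = ∑ r, (if σ r ≠ p ∧ σ r ≠ q ∧ bk (σ r) = j then 1 else 0) := by
  rw [B, Finset.card_filter, ← Equiv.sum_comp σ]

private theorem A4_count (h : Blk w p q bk bl) {i : Fin n} {κ : Fin n → ι} (hne : hh w p q i κ ≠ 0)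
    (σ : Perm (Fin (2 * n))) {a b : Fin n} (hab : a ≠ b) {u v : Fin (2 * n)}
    (ha : (σ (fst a) = p ∧ σ (snd a) = u) ∨ (σ (fst a) = u ∧ σ (snd a) = p))
    (hb : (σ (fst b) = q ∧ σ (snd b) = v) ∨ (σ (fst b) = v ∧ σ (snd b) = q))
    (hu : u ≠ p ∧ u ≠ q) (hv : v ≠ p ∧ v ≠ q)
    (hr : ∀ s, s ≠ a → s ≠ b → (σ (fst s) ≠ p ∧ σ (fst s) ≠ q ∧ bk (σ (fst s)) = bl (κ s)) ∧
      (σ (snd s) ≠ p ∧ σ (snd s) ≠ q ∧ bk (σ (snd s)) = bl (κ s))) (j : ℕ) :
    2 * ((if bl (κ a) = j then 1 else 0) + (if bl (κ b) = j then 1 else 0)) =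
      2 * (if bl (κ i) = j then 1 else 0) + ((if bk u = j then 1 else 0) + (if bk v = j then 1 else 0)) := by
  have hc := card_block h hne j
  rw [A4_card p q bk j σ, A4_sum_slots] at hc
  rw [Finset.card_filter] at hc
  have e1 : ∑ s : Fin n, (((if σ (fst s) ≠ p ∧ σ (fst s) ≠ q ∧ bk (σ (fst s)) = j then 1 else 0) +
        (if σ (snd s) ≠ p ∧ σ (snd s) ≠ q ∧ bk (σ (snd s)) = j then 1 else 0)) +
        ((if s = a then 2 * (if bl (κ a) = j then 1 else 0) else 0) +
          (if s = b then 2 * (if bl (κ b) = j then 1 else 0) else 0))) =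
      ∑ s : Fin n, (2 * (if bl (κ s) = j then 1 else 0) +
        ((if s = a then (if bk u = j then 1 else 0) else 0) + (if s = b then (if bk v = j then 1 else 0) else 0))) := by
    refine Finset.sum_congr rfl fun s _ => ?_
    by_cases hsa : s = a
    · subst hsa
      rw [if_pos rfl, if_pos rfl, if_neg hab, if_neg hab]
      rcases ha with ⟨h1, h2⟩ | ⟨h1, h2⟩
      · rw [h1, h2]
        simp only [ne_eq, not_true_eq_false, false_and, if_false, hu.1, hu.2, not_false_eq_true, true_and]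
        omega
      · rw [h1, h2]
        simp only [ne_eq, not_true_eq_false, false_and, if_false, hu.1, hu.2, not_false_eq_true, true_and]
        omega
    · by_cases hsb : s = b
      · subst hsb
        rw [if_neg hsa, if_pos rfl, if_neg hsa, if_pos rfl]
        rcases hb with ⟨h1, h2⟩ | ⟨h1, h2⟩
        · rw [h1, h2]
          simp only [ne_eq, not_true_eq_false, false_and, and_false, if_false, hv.1, hv.2, not_false_eq_true, true_and]
          omega
        · rw [h1, h2]
          simp only [ne_eq, not_true_eq_false, false_and, and_false, if_false, hv.1, hv.2, not_false_eq_true, true_and]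
          omega
      · rw [if_neg hsa, if_neg hsb, if_neg hsa, if_neg hsb]
        obtain ⟨⟨h1, h2, h3⟩, h4, h5, h6⟩ := hr s hsa hsb
        simp only [ne_eq, h1, h2, h3, h4, h5, h6, not_false_eq_true, true_and]
        omega
  have e2 : ∑ s : Fin n, ((if s ≠ i ∧ bl (κ s) = j then 1 else 0) +
        (if s = i then (if bl (κ i) = j then 1 else 0) else 0)) =
      ∑ s : Fin n, (if bl (κ s) = j then 1 else 0) := by
    refine Finset.sum_congr rfl fun s _ => ?_
    by_cases hs : s = i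
    · subst hs
      simp
    · simp [hs]
  simp only [Finset.sum_add_distrib, ← Finset.mul_sum, Finset.sum_ite_eq', Finset.mem_univ, if_true] at e1 e2 hc
  omega

/-- COUNTING. PROOF: let `p = σ r`, `q = σ r'`, `r` in the slot `a`, `r'` in the slot `b` (`exists_fst_or_snd`); suppose
`a ≠ b`. Let `u`, `v` be the partners of `p`, `q` (the other value of the slot `a`, `b`); `u, v ≠ p, q`. All other slots
have both values different from `p, q`, so both values in the block `bl (κ s)` (`supp`). By `card_block` for `κ`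
(`hne`): the block `j` has `2 * #{s ≠ i, bl (κ s) = j}` elements. Elements of the block `j` (count `σ⁻¹` of them by
slots): two for every slot `s ≠ a, b` with `bl (κ s) = j` (including `s = i`), at most one for `u`, one for `v`.
Case `a = i` (then `b ≠ i`): `j := bl (κ b)`. The slots `s ≠ i, b` with `bl (κ s) = j` give `2 (N - 1)`, `N` the number
for `j`; so `u` and `v` must both be in the block `j`; but `v` in the block `bl (κ b)` gives `w (κ b) q v = 0` (`Ad`,
skewness), against the product. Case `b = i`: the same. Case `a, b ≠ i`: `j := bl (κ a)`, `u` is not in the block `j`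
(`Ad`). If `bl (κ b) = j`: also `v` is not in the block, elements: `2 (N - 2) + 2 [bl (κ i) = j] < 2 N`, contradiction.
If `bl (κ b) ≠ j`: `2 (N - 1) + [v in j] + 2 [bl (κ i) = j] = 2 N`, so `bl (κ i) = j`; by symmetry `bl (κ i) = bl (κ b)`,
contradiction. -/
theorem slot_pq (h : Blk w p q bk bl) {i : Fin n} {κ : Fin n → ι} (hne : hh w p q i κ ≠ 0) (hA : Ad w p q bk bl i κ)
    (σ : Perm (Fin (2 * n))) (hσ : ∏ s, w (κ s) (σ (fst s)) (σ (snd s)) ≠ 0) :
    ∃ s, (σ (fst s) = p ∧ σ (snd s) = q) ∨ (σ (fst s) = q ∧ σ (snd s) = p) := by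
  by_contra hcon
  push Not at hcon
  have hfac : ∀ s, w (κ s) (σ (fst s)) (σ (snd s)) ≠ 0 := fun s =>
    Finset.prod_ne_zero_iff.1 hσ s (Finset.mem_univ s)
  obtain ⟨a, ha⟩ := exists_fst_or_snd (σ.symm p)
  obtain ⟨b, hb⟩ := exists_fst_or_snd (σ.symm q)
  obtain ⟨u, hau⟩ : ∃ u, (σ (fst a) = p ∧ σ (snd a) = u) ∨ (σ (fst a) = u ∧ σ (snd a) = p) := by
    rcases ha with ha | ha
    · exact ⟨σ (snd a), Or.inl ⟨by rw [← ha, Equiv.apply_symm_apply], rfl⟩⟩
    · exact ⟨σ (fst a), Or.inr ⟨rfl, by rw [← ha, Equiv.apply_symm_apply]⟩⟩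
  obtain ⟨v, hbv⟩ : ∃ v, (σ (fst b) = q ∧ σ (snd b) = v) ∨ (σ (fst b) = v ∧ σ (snd b) = q) := by
    rcases hb with hb | hb
    · exact ⟨σ (snd b), Or.inl ⟨by rw [← hb, Equiv.apply_symm_apply], rfl⟩⟩
    · exact ⟨σ (fst b), Or.inr ⟨rfl, by rw [← hb, Equiv.apply_symm_apply]⟩⟩
  have hup : u ≠ p := by
    rintro rfl
    rcases hau with ⟨h1, h2⟩ | ⟨h1, h2⟩
    · exact fst_ne_snd a a (σ.injective (h1.trans h2.symm))
    · exact fst_ne_snd a a (σ.injective (h1.trans h2.symm))
  have hvq : v ≠ q := by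
    rintro rfl
    rcases hbv with ⟨h1, h2⟩ | ⟨h1, h2⟩
    · exact fst_ne_snd b b (σ.injective (h1.trans h2.symm))
    · exact fst_ne_snd b b (σ.injective (h1.trans h2.symm))
  have huq : u ≠ q := by
    rintro rfl
    rcases hau with ⟨h1, h2⟩ | ⟨h1, h2⟩
    · exact (hcon a).1 h1 h2
    · exact (hcon a).2 h1 h2
  have hvp : v ≠ p := by
    rintro rfl
    rcases hbv with ⟨h1, h2⟩ | ⟨h1, h2⟩
    · exact (hcon b).2 h1 h2
    · exact (hcon b).1 h1 h2
  have hpa : ∀ r, σ r = p → r = fst a ∨ r = snd a := by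
    intro r hr
    rcases hau with ⟨h1, h2⟩ | ⟨h1, h2⟩
    · exact Or.inl (σ.injective (hr.trans h1.symm))
    · exact Or.inr (σ.injective (hr.trans h2.symm))
  have hqb : ∀ r, σ r = q → r = fst b ∨ r = snd b := by
    intro r hr
    rcases hbv with ⟨h1, h2⟩ | ⟨h1, h2⟩
    · exact Or.inl (σ.injective (hr.trans h1.symm))
    · exact Or.inr (σ.injective (hr.trans h2.symm))
  have hab : a ≠ b := by
    rintro rfl
    rcases hau with ⟨h1, h2⟩ | ⟨h1, h2⟩
    · rcases hbv with ⟨h3, h4⟩ | ⟨h3, h4⟩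
      · exact h.ne (h1.symm.trans h3)
      · exact huq (h2.symm.trans h4)
    · rcases hbv with ⟨h3, h4⟩ | ⟨h3, h4⟩
      · exact huq (h1.symm.trans h3)
      · exact h.ne (h2.symm.trans h4)
  have hr : ∀ s, s ≠ a → s ≠ b → (σ (fst s) ≠ p ∧ σ (fst s) ≠ q ∧ bk (σ (fst s)) = bl (κ s)) ∧
      (σ (snd s) ≠ p ∧ σ (snd s) ≠ q ∧ bk (σ (snd s)) = bl (κ s)) := by
    intro s hsa hsb
    have n1 : σ (fst s) ≠ p := by
      intro e
      rcases hpa _ e with e | e
      · exact hsa (fst_inj.1 e)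
      · exact fst_ne_snd _ _ e
    have n2 : σ (fst s) ≠ q := by
      intro e
      rcases hqb _ e with e | e
      · exact hsb (fst_inj.1 e)
      · exact fst_ne_snd _ _ e
    have n3 : σ (snd s) ≠ p := by
      intro e
      rcases hpa _ e with e | e
      · exact fst_ne_snd _ _ e.symm
      · exact hsa (snd_inj.1 e)
    have n4 : σ (snd s) ≠ q := by
      intro e
      rcases hqb _ e with e | e
      · exact fst_ne_snd _ _ e.symm
      · exact hsb (snd_inj.1 e)
    have h5 : rs p q (w (κ s)) (σ (fst s)) (σ (snd s)) ≠ 0 := by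
      rw [rs_of _ n1 n2 n3 n4]
      exact hfac s
    obtain ⟨h6, h7⟩ := h.supp _ _ _ h5
    exact ⟨⟨n1, n2, h6⟩, n3, n4, h7⟩
  have key := A4_count h hne σ hab hau hbv ⟨hup, huq⟩ ⟨hvp, hvq⟩ hr
  have hua : a ≠ i → bk u ≠ bl (κ a) := by
    intro hai e
    have h0 := (hA a hai u hup huq e).1
    have h1 := hfac a
    rcases hau with ⟨h2, h3⟩ | ⟨h2, h3⟩
    · rw [h2, h3] at h1
      exact h1 h0
    · rw [h2, h3, h.skew, h0] at h1
      exact h1 neg_zero
  have hvb : b ≠ i → bk v ≠ bl (κ b) := by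
    intro hbi e
    have h0 := (hA b hbi v hvp hvq e).2
    have h1 := hfac b
    rcases hbv with ⟨h2, h3⟩ | ⟨h2, h3⟩
    · rw [h2, h3] at h1
      exact h1 h0
    · rw [h2, h3, h.skew, h0] at h1
      exact h1 neg_zero
  have k1 := key (bl (κ a))
  have k2 := key (bl (κ b))
  rw [if_pos rfl] at k1
  rw [if_pos (rfl : bl (κ b) = bl (κ b))] at k2
  by_cases hai : a = i
  · have hbi : b ≠ i := fun e => hab (hai.trans e.symm)
    rw [if_neg (hvb hbi)] at k2
    rw [← hai] at k2
    split_ifs at k2 <;> omega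
  · rw [if_neg (hua hai)] at k1
    by_cases hbi : b = i
    · rw [← hbi] at k1
      split_ifs at k1 <;> omega
    · rw [if_neg (hvb hbi)] at k2
      have c1 : bl (κ i) = bl (κ a) := by
        by_contra hc
        rw [if_neg hc] at k1
        split_ifs at k1 <;> omega
      have c2 : bl (κ i) = bl (κ b) := by
        by_contra hc
        rw [if_neg hc] at k2
        split_ifs at k2 <;> omega
      have c3 : bl (κ b) = bl (κ a) := c2.symm.trans c1
      rw [if_pos c3, if_pos c1] at k1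
      split_ifs at k1 <;> omega

end H7HG
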