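import Pool.Agent.Lib.H7HG.A6a

/-! # H7HG, chunk A6b: the adapted vectors -/

set_option autoImplicit false

namespace H7HG

open Finset Equiv Pool.Agent.H69Hopf

variable {n : ℕ} {ι : Type} {w : ι → Fin (2 * n) → Fin (2 * n) → ℝ} {p q : Fin (2 * n)}
  {bk : Fin (2 * n) → ℕ} {bl : ι → ℕ}

/-- Extension by zero and sums. -/
theorem sum_ext_zero {N : ℕ} (P : Fin N → Prop) [DecidablePred P] (z : {a // P a} → ℝ) (f : Fin N → ℝ) :
    ∑ a, (if h : P a then z ⟨a, h⟩ else 0) * f a = ∑ a : {a // P a}, z a * f a.1 := by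
  rw [← Fintype.sum_subtype_add_sum_subtype P (fun a => (if h : P a then z ⟨a, h⟩ else 0) * f a)]
  have h2 : ∑ i : {x // ¬ P x}, (if h : P i.1 then z ⟨i.1, h⟩ else 0) * f i.1 = 0 := by
    refine Finset.sum_eq_zero fun i _ => ?_
    rw [dif_neg i.2, zero_mul]
  rw [h2, add_zero]
  refine Finset.sum_congr rfl fun i _ => ?_
  rw [dif_pos i.2]

/-- PROOF: linear algebra: the linear map from the functions on the block to the functions on the block, `z ↦
(c ↦ Σ_a z a * w (κ s) a c)`, is injective (`nondeg`), hence surjective (`LinearMap.injective_iff_surjective`). -/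
theorem solve (h : Blk w p q bk bl) {i : Fin n} {κ : Fin n → ι} (hne : hh w p q i κ ≠ 0) {s : Fin n} (hs : s ≠ i)
    (g : Fin (2 * n) → ℝ) : ∃ z : Fin (2 * n) → ℝ, (∀ a, z a ≠ 0 → a ≠ p ∧ a ≠ q ∧ bk a = bl (κ s)) ∧
      ∀ c, c ≠ p → c ≠ q → bk c = bl (κ s) → ∑ a, z a * w (κ s) a c = g c := by
  classical
  let P : Fin (2 * n) → Prop := fun a => a ≠ p ∧ a ≠ q ∧ bk a = bl (κ s)
  let L : ({a // P a} → ℝ) →ₗ[ℝ] ({a // P a} → ℝ) :=
    { toFun := fun z c => ∑ a : {a // P a}, z a * w (κ s) a.1 c.1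
      map_add' := by
        intro x y
        funext c
        simp only [Pi.add_apply, add_mul, Finset.sum_add_distrib]
      map_smul' := by
        intro m x
        funext c
        simp only [Pi.smul_apply, smul_eq_mul, RingHom.id_apply, Finset.mul_sum, mul_assoc] }
  have hinj : Function.Injective L := by
    rw [← LinearMap.ker_eq_bot, LinearMap.ker_eq_bot']
    intro z hz
    have h0 := nondeg h hne hs (z := fun a => if h : P a then z ⟨a, h⟩ else 0)
      (by
        intro a ha
        by_contra hc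
        exact ha (dif_neg hc))
      (by
        intro c hc1 hc2 hc3
        rw [sum_ext_zero P z (fun a => w (κ s) a c)]
        exact congrFun hz ⟨c, hc1, hc2, hc3⟩)
    funext a
    have h1 := congrFun h0 a.1
    simp only [Pi.zero_apply] at h1
    rw [dif_pos a.2] at h1
    exact h1
  have hsur : Function.Surjective L := LinearMap.injective_iff_surjective.mp hinj
  obtain ⟨z, hz⟩ := hsur (fun c => g c.1)
  refine ⟨fun a => if h : P a then z ⟨a, h⟩ else 0, ?_, ?_⟩
  · intro a ha
    by_contra hc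
    exact ha (dif_neg hc)
  · intro c hc1 hc2 hc3
    rw [sum_ext_zero P z (fun a => w (κ s) a c)]
    exact congrFun hz ⟨c, hc1, hc2, hc3⟩

/-- PROOF: for `r = p` and `r = q`: for every block number `j` that occurs as `bl (κ s)`, `s ≠ i`, choose such an `s = s_j`
and `z_j` from `solve` with `g c = - w (κ s) r c`; `u a = z_(bk a) a` for `a ≠ p, q` with `bk a` occurring, `0` otherwise
(so `u = Σ_j z_j`). For `s ≠ i` and `c` in the block `bl (κ s) = j`: `κ s = κ s_j` (`uni`), and
`vv (w (κ s)) (e_r + u) e_c = w (κ s) r c + Σ_a u a * w (κ s) a c`, where only `a` in the block `j` count (`supp`). -/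
theorem exists_vec (h : Blk w p q bk bl) {i : Fin n} {κ : Fin n → ι} (hne : hh w p q i κ ≠ 0) (r : Fin (2 * n)) :
    ∃ u : Fin (2 * n) → ℝ, u p = 0 ∧ u q = 0 ∧ ∀ s, s ≠ i → ∀ c, c ≠ p → c ≠ q → bk c = bl (κ s) →
      vv (w (κ s)) (Pi.single r 1 + u) (Pi.single c 1) = 0 := by
  classical
  choose Z hZ1 hZ2 using fun (s : Fin n) (hs : s ≠ i) => solve h hne hs (fun c => - w (κ s) r c)
  choose pk hpk1 hpk2 using fun (j : ℕ) (H : ∃ s, s ≠ i ∧ bl (κ s) = j) => H
  obtain ⟨u, hu⟩ : ∃ u : Fin (2 * n) → ℝ, ∀ a, u a = if H : ∃ s, s ≠ i ∧ bl (κ s) = bk a then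
      Z (pk (bk a) H) (hpk1 (bk a) H) a else 0 := ⟨_, fun _ => rfl⟩
  have hup : ∀ a : Fin (2 * n), u a ≠ 0 → a ≠ p ∧ a ≠ q := by
    intro a ha
    rw [hu a] at ha
    by_cases H : ∃ s, s ≠ i ∧ bl (κ s) = bk a
    · rw [dif_pos H] at ha
      have := hZ1 _ _ a ha
      exact ⟨this.1, this.2.1⟩
    · rw [dif_neg H] at ha
      exact absurd rfl ha
  refine ⟨u, ?_, ?_, ?_⟩
  · by_contra hc
    exact (hup p hc).1 rfl
  · by_contra hc
    exact (hup q hc).2 rfl
  · intro s hs c hc1 hc2 hc3
    have H : ∃ t, t ≠ i ∧ bl (κ t) = bk c := ⟨s, hs, hc3.symm⟩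
    have ht1 : pk (bk c) H ≠ i := hpk1 (bk c) H
    have ht2 : bl (κ (pk (bk c) H)) = bk c := hpk2 (bk c) H
    have hκ : κ (pk (bk c) H) = κ s := uni h hne ht1 hs (ht2.trans hc3)
    have hz := hZ2 (pk (bk c) H) ht1 c hc1 hc2 ht2.symm
    have hsum : ∑ a, u a * w (κ s) a c = ∑ a, Z (pk (bk c) H) ht1 a * w (κ (pk (bk c) H)) a c := by
      refine Finset.sum_congr rfl fun a _ => ?_
      rw [hκ]
      by_cases hap : a ≠ p ∧ a ≠ q
      · by_cases hw : w (κ s) a c = 0
        · rw [hw, mul_zero, mul_zero]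
        · have hrs : rs p q (w (κ s)) a c ≠ 0 := by
            rw [rs_of (w (κ s)) hap.1 hap.2 hc1 hc2]
            exact hw
          have hb := h.supp (κ s) a c hrs
          have hab : bk a = bk c := hb.1.trans hc3.symm
          congr 1
          rw [hu a]
          have key : ∀ j : ℕ, j = bk c → (if H : ∃ s, s ≠ i ∧ bl (κ s) = j then Z (pk j H) (hpk1 j H) a else 0) =
              Z (pk (bk c) H) ht1 a := by
            intro j hj
            subst hj
            rw [dif_pos H]
          exact key (bk a) hab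
      · have h1 : u a = 0 := by
          by_contra hc
          exact hap (hup a hc)
        have h2 : Z (pk (bk c) H) ht1 a = 0 := by
          by_contra hc
          have := hZ1 _ _ a hc
          exact hap ⟨this.1, this.2.1⟩
        rw [h1, h2]
    unfold vv
    have hinner : ∀ a, ∑ b, w (κ s) a b * ((Pi.single r (1 : ℝ) + u : Fin (2 * n) → ℝ) a) * (Pi.single c (1 : ℝ) : Fin (2 * n) → ℝ) b =
        w (κ s) a c * (Pi.single r (1 : ℝ) : Fin (2 * n) → ℝ) a + u a * w (κ s) a c := by
      intro a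
      rw [Finset.sum_eq_single c]
      · rw [Pi.single_eq_same, Pi.add_apply]
        ring
      · intro b _ hb
        rw [Pi.single_eq_of_ne hb, mul_zero]
      · intro hc
        exact absurd (Finset.mem_univ c) hc
    rw [Finset.sum_congr rfl fun a _ => hinner a, Finset.sum_add_distrib, hsum, hz, hκ]
    rw [Finset.sum_eq_single r]
    · rw [Pi.single_eq_same]
      ring
    · intro b _ hb
      rw [Pi.single_eq_of_ne hb, mul_zero]
    · intro hc
      exact absurd (Finset.mem_univ r) hc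

end H7HG
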