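import Pool.Agent.Lib.H7HG.A7a

/-! # H7HG, chunk A7b: the core inequality -/

set_option autoImplicit false

namespace H7HG

open Finset Equiv Pool.Agent.H69Hopf

variable {n : ℕ} {ι : Type} {w : ι → Fin (2 * n) → Fin (2 * n) → ℝ} {p q : Fin (2 * n)}
  {bk : Fin (2 * n) → ℕ} {bl : ι → ℕ}

/-- PROOF: let `a, b` be slots with `hh w p q a κ ≠ 0` and `hh w p q b κ ≠ 0`. By `hh_slot` at `a`: `hh w p q b κ` is not
zero only if `κ b = κ a`. So all slots `b` with `hh ≠ 0` are in `{s | κ s = κ a}` and the number of the good slots is at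
most this card. -/
theorem good_le [DecidableEq ι] (h : Blk w p q bk bl) (κ : Fin n → ι) :
    ∑ i, (if hh w p q i κ ≠ 0 then (1 / ((univ.filter fun s => κ s = κ i).card : ℝ)) ^ 2 else 0) ≤ 1 := by
  classical
  by_cases hex : ∃ a, hh w p q a κ ≠ 0
  · obtain ⟨a, ha⟩ := hex
    have hN : 0 < (univ.filter fun s => κ s = κ a).card :=
      Finset.card_pos.mpr ⟨a, by simp⟩
    set N : ℕ := (univ.filter fun s => κ s = κ a).card with hNdef
    have hNr : (1 : ℝ) ≤ N := by exact_mod_cast hN
    have hle : ∀ i ∈ (univ : Finset (Fin n)),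
        (if hh w p q i κ ≠ 0 then (1 / ((univ.filter fun s => κ s = κ i).card : ℝ)) ^ 2 else 0) ≤
          (if κ i = κ a then (1 / (N : ℝ)) ^ 2 else 0) := by
      intro i _
      by_cases hi : hh w p q i κ ≠ 0
      · have hia : κ i = κ a := by
          by_contra hc
          apply hi
          rw [hh_slot h ha i, if_neg hc]
        rw [if_pos hi, if_pos hia, hia]
      · rw [if_neg hi]
        split_ifs
        · positivity
        · exact le_refl _
    calc ∑ i, (if hh w p q i κ ≠ 0 then (1 / ((univ.filter fun s => κ s = κ i).card : ℝ)) ^ 2 else 0)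
        ≤ ∑ i, (if κ i = κ a then (1 / (N : ℝ)) ^ 2 else 0) := Finset.sum_le_sum hle
      _ = (N : ℝ) * (1 / (N : ℝ)) ^ 2 := by
          rw [← Finset.sum_filter, Finset.sum_const, nsmul_eq_mul]
      _ = 1 / (N : ℝ) := by
          have : (N : ℝ) ≠ 0 := by linarith
          field_simp
      _ ≤ 1 := by
          rw [div_le_one (by linarith)]
          exact hNr
  · push Not at hex
    have : ∑ i, (if hh w p q i κ ≠ 0 then (1 / ((univ.filter fun s => κ s = κ i).card : ℝ)) ^ 2 else 0) = 0 := by
      apply Finset.sum_eq_zero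
      intro i _
      rw [if_neg]
      intro hc
      exact hc (hex i)
    rw [this]
    exact zero_le_one

/-- Every family of indices comes from `card ι` pairs. -/
private theorem sum_update [Fintype ι] [DecidableEq ι] (i : Fin n) (F : (Fin n → ι) → ℝ) :
    ∑ κ : Fin n → ι, ∑ x : ι, F (Function.update κ i x) = (Fintype.card ι : ℝ) * ∑ κ : Fin n → ι, F κ := by
  let e : ((Fin n → ι) × ι) ≃ ((Fin n → ι) × ι) :=
    { toFun := fun r => (Function.update r.1 i r.2, r.1 i)
      invFun := fun r => (Function.update r.1 i r.2, r.1 i)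
      left_inv := fun r => by
        refine Prod.ext ?_ ?_
        · simp only [Function.update_idem, Function.update_eq_self]
        · simp only [Function.update_self]
      right_inv := fun r => by
        refine Prod.ext ?_ ?_
        · simp only [Function.update_idem, Function.update_eq_self]
        · simp only [Function.update_self] }
  have h1 : ∑ κ : Fin n → ι, ∑ x : ι, F (Function.update κ i x) = ∑ r : (Fin n → ι) × ι, F (e r).1 := by
    rw [Fintype.sum_prod_type]
    exact Finset.sum_congr rfl fun κ _ => Finset.sum_congr rfl fun x _ => rfl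
  rw [h1, Equiv.sum_comp e (fun r : (Fin n → ι) × ι => F r.1), Fintype.sum_prod_type]
  simp only [Finset.sum_const, Finset.card_univ, nsmul_eq_mul]
  rw [Finset.mul_sum]

/-- THE CORE INEQUALITY (`h` and `mp` as functions of all `κ : Fin n → ι`, hence the factor `card ι`).
PROOF: `term_le`; `Σ_κ [hh i κ ≠ 0] Σ_x G (update κ i x) = card ι * Σ_κ [hh i κ ≠ 0] G κ` (`hh_update`; every `κ'` is
`update κ i x` for `card ι` pairs: `x = κ' i`, `κ = update κ' i y`); then sum over `i` and `good_le`. -/
theorem core [Fintype ι] [DecidableEq ι] (h : Blk w p q bk bl)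
    (hK : ∀ x y, vv (mm p q) x y ^ 2 ≤ ∑ k, vv (w k) x y ^ 2) :
    ∑ i, ∑ κ : Fin n → ι, hh w p q i κ ^ 2 ≤ (Fintype.card ι : ℝ) * ∑ κ : Fin n → ι, mp (fun s => w (κ s)) ^ 2 := by
  have h1 : ∀ i : Fin n, ∑ κ : Fin n → ι, hh w p q i κ ^ 2 ≤
      (Fintype.card ι : ℝ) * ∑ κ : Fin n → ι, (if hh w p q i κ ≠ 0 then
        (mp (fun s => w (κ s)) / ((univ.filter fun s => κ s = κ i).card : ℝ)) ^ 2 else 0) := by
    intro i
    rw [← sum_update i (fun κ : Fin n → ι => if hh w p q i κ ≠ 0 then
        (mp (fun s => w (κ s)) / ((univ.filter fun s => κ s = κ i).card : ℝ)) ^ 2 else 0)]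
    apply Finset.sum_le_sum
    intro κ _
    by_cases hi : hh w p q i κ ≠ 0
    · refine le_trans (term_le h hK hi) (le_of_eq ?_)
      apply Finset.sum_congr rfl
      intro x _
      have hx : hh w p q i (Function.update κ i x) ≠ 0 := by
        rw [hh_update]
        exact hi
      rw [if_pos hx]
    · have h0 : hh w p q i κ = 0 := by
        by_contra hc
        exact hi hc
      rw [h0]
      have : (0 : ℝ) ^ 2 = 0 := by norm_num
      rw [this]
      apply Finset.sum_nonneg
      intro x _
      split_ifs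
      · positivity
      · exact le_refl _
  calc ∑ i, ∑ κ : Fin n → ι, hh w p q i κ ^ 2
      ≤ ∑ i : Fin n, (Fintype.card ι : ℝ) * ∑ κ : Fin n → ι, (if hh w p q i κ ≠ 0 then
        (mp (fun s => w (κ s)) / ((univ.filter fun s => κ s = κ i).card : ℝ)) ^ 2 else 0) :=
        Finset.sum_le_sum fun i _ => h1 i
    _ = (Fintype.card ι : ℝ) * ∑ κ : Fin n → ι, ∑ i : Fin n, (if hh w p q i κ ≠ 0 then
        (mp (fun s => w (κ s)) / ((univ.filter fun s => κ s = κ i).card : ℝ)) ^ 2 else 0) := by
        rw [← Finset.mul_sum, Finset.sum_comm]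
    _ ≤ (Fintype.card ι : ℝ) * ∑ κ : Fin n → ι, mp (fun s => w (κ s)) ^ 2 := by
        apply mul_le_mul_of_nonneg_left _ (Nat.cast_nonneg _)
        apply Finset.sum_le_sum
        intro κ _
        have h2 : ∑ i : Fin n, (if hh w p q i κ ≠ 0 then
            (mp (fun s => w (κ s)) / ((univ.filter fun s => κ s = κ i).card : ℝ)) ^ 2 else 0) =
            mp (fun s => w (κ s)) ^ 2 * ∑ i, (if hh w p q i κ ≠ 0 then
              (1 / ((univ.filter fun s => κ s = κ i).card : ℝ)) ^ 2 else 0) := by
          rw [Finset.mul_sum]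
          apply Finset.sum_congr rfl
          intro i _
          split_ifs
          · ring
          · ring
        rw [h2]
        have h3 := mul_le_mul_of_nonneg_left (good_le h κ) (sq_nonneg (mp (fun s => w (κ s))))
        rw [mul_one] at h3
        exact h3

end H7HG
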