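import Pool.Agent.Lib.H69.Hopf.Alt

/-! # H7HG, file D: definitions (see PROOF.md)

`R = m ⊗ m - P`, `m = e_p ∧ e_q`, `P = Σ w_x ⊗ w_x`, and the restriction of `P` to the span of the other basis vectors
splits into blocks of two and four basis vectors (`bk` = number of the block). -/

set_option autoImplicit false

namespace H7HG

open Finset Equiv Pool.Agent.H69Hopf

/-- The polarized Pfaffian (times `2 ^ n`). -/
noncomputable def mp {n : ℕ} (f : Fin n → Fin (2 * n) → Fin (2 * n) → ℝ) : ℝ :=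
  ∑ σ : Perm (Fin (2 * n)), ((Perm.sign σ : ℤ) : ℝ) * ∏ i, f i (σ (fst i)) (σ (snd i))

/-- The two-form `e_p ∧ e_q`. -/
def mm {N : ℕ} (p q : Fin N) : Fin N → Fin N → ℝ := fun i j =>
  (if i = p then 1 else 0) * (if j = q then 1 else 0) - (if i = q then 1 else 0) * (if j = p then 1 else 0)

/-- The restriction of a two-form to the span of the basis vectors other than `p, q`. -/
def rs {N : ℕ} (p q : Fin N) (f : Fin N → Fin N → ℝ) : Fin N → Fin N → ℝ := fun i j =>
  if i = p ∨ i = q ∨ j = p ∨ j = q then 0 else f i j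

/-- The value of a two-form at two vectors. -/
def vv {N : ℕ} (f : Fin N → Fin N → ℝ) (x y : Fin N → ℝ) : ℝ := ∑ i, ∑ j, f i j * x i * y j

/-- The wedge product of two two-forms at four basis vectors. -/
def pol {N : ℕ} (f g : Fin N → Fin N → ℝ) (a b c d : Fin N) : ℝ :=
  f a b * g c d - f a c * g b d + f a d * g b c + g a b * f c d - g a c * f b d + g a d * f b c

/-- The block number `j`. -/
def B {N : ℕ} (p q : Fin N) (bk : Fin N → ℕ) (j : ℕ) : Finset (Fin N) := univ.filter fun u => u ≠ p ∧ u ≠ q ∧ bk u = j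

/-- The data: `w x` is skew, its restriction lives on the block `bl x`; different forms of a block have wedge product `0`
on the block; in a block of two elements only one form is not zero. -/
structure Blk {n : ℕ} {ι : Type} (w : ι → Fin (2 * n) → Fin (2 * n) → ℝ) (p q : Fin (2 * n)) (bk : Fin (2 * n) → ℕ)
    (bl : ι → ℕ) : Prop where
  ne : p ≠ q
  skew : ∀ x i j, w x i j = - w x j i
  supp : ∀ x i j, rs p q (w x) i j ≠ 0 → bk i = bl x ∧ bk j = bl x
  pol : ∀ x y, x ≠ y → bl x = bl y → ∀ a b c d, H7HG.pol (rs p q (w x)) (rs p q (w y)) a b c d = 0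
  one : ∀ x y, x ≠ y → bl x = bl y → (B p q bk (bl x)).card = 2 → rs p q (w x) = 0 ∨ rs p q (w y) = 0

/-- `h`: the slot `i` is filled with `m = e_p ∧ e_q`, the others with the `w (κ s)`. It does not depend on `κ i`. -/
noncomputable def hh {n : ℕ} {ι : Type} (w : ι → Fin (2 * n) → Fin (2 * n) → ℝ) (p q : Fin (2 * n)) (i : Fin n)
    (κ : Fin n → ι) : ℝ := mp (Function.update (fun s => w (κ s)) i (mm p q))

/-- The components of a two-form in the basis given by the columns of `E`. -/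
def tr {N : ℕ} (E : Matrix (Fin N) (Fin N) ℝ) (f : Fin N → Fin N → ℝ) : Fin N → Fin N → ℝ := fun i j =>
  ∑ a, ∑ b, f a b * E a i * E b j

theorem mm_pq {N : ℕ} {p q : Fin N} (h : p ≠ q) : mm p q p q = 1 := by
  simp [mm, h]

theorem mm_skew {N : ℕ} (p q i j : Fin N) : mm p q i j = - mm p q j i := by
  unfold mm
  ring

theorem mm_ne {N : ℕ} {p q i j : Fin N} (h : mm p q i j ≠ 0) : (i = p ∧ j = q) ∨ (i = q ∧ j = p) := by
  by_contra hc
  push Not at hc
  apply h
  unfold mm
  by_cases h1 : i = p <;> by_cases h2 : j = q <;> by_cases h3 : i = q <;> by_cases h4 : j = p <;> simp_all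

theorem rs_of {N : ℕ} {p q : Fin N} (f : Fin N → Fin N → ℝ) {i j : Fin N} (h1 : i ≠ p) (h2 : i ≠ q) (h3 : j ≠ p)
    (h4 : j ≠ q) : rs p q f i j = f i j := by
  simp [rs, h1, h2, h3, h4]

theorem rs_ne {N : ℕ} {p q : Fin N} {f : Fin N → Fin N → ℝ} {i j : Fin N} (h : rs p q f i j ≠ 0) :
    i ≠ p ∧ i ≠ q ∧ j ≠ p ∧ j ≠ q ∧ f i j ≠ 0 := by
  unfold rs at h
  split_ifs at h with h1
  · exact absurd rfl h
  · push Not at h1
    exact ⟨h1.1, h1.2.1, h1.2.2.1, h1.2.2.2, h⟩

end H7HG
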