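import Mathlib

/-! # H7HG, chunk L1a: diagonalization of a symmetric form -/

set_option autoImplicit false

namespace H7HG

open Finset Module

/-- PROOF: let `e` be an orthonormal basis (`stdOrthonormalBasis`), `T x = Σ_i q x (e i) • e i` (linear); `⟪T x, y⟫ = q x y`;
`T.IsSymmetric`; take `hT.eigenvectorBasis rfl`: `q (b i) (b j) = ⟪T (b i), b j⟫ = μ_i ⟪b i, b j⟫ = 0`. -/
theorem diag {F : Type*} [NormedAddCommGroup F] [InnerProductSpace ℝ F] [FiniteDimensional ℝ F]
    (q : F →ₗ[ℝ] F →ₗ[ℝ] ℝ) (hq : ∀ x y, q x y = q y x) :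
    ∃ b : OrthonormalBasis (Fin (finrank ℝ F)) ℝ F, ∀ i j, i ≠ j → q (b i) (b j) = 0 := by
  let e := stdOrthonormalBasis ℝ F
  let T : F →ₗ[ℝ] F := ∑ i, (q.flip (e i)).smulRight (e i)
  have hT1 : ∀ x, T x = ∑ i, q x (e i) • e i := by
    intro x
    simp only [T, LinearMap.sum_apply, LinearMap.smulRight_apply, LinearMap.flip_apply]
  have hT2 : ∀ x y, inner ℝ (T x) y = q x y := by
    intro x y
    rw [hT1, sum_inner]
    have h1 : ∀ i, inner ℝ (q x (e i) • e i) y = q x (inner ℝ (e i) y • e i) := by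
      intro i
      rw [real_inner_smul_left, map_smul, smul_eq_mul, mul_comm]
    simp only [h1]
    rw [← map_sum, e.sum_repr']
  have hT : T.IsSymmetric := by
    intro x y
    rw [hT2, real_inner_comm, hT2, hq]
  refine ⟨hT.eigenvectorBasis rfl, fun i j hij => ?_⟩
  rw [← hT2, hT.apply_eigenvectorBasis, inner_smul_left,
    (hT.eigenvectorBasis rfl).orthonormal.2 hij, mul_zero]

end H7HG
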