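import Pool.Agent.Lib.H7HG.L1a

/-! # H7HG, chunk L1b: adapted orthonormal basis -/

set_option autoImplicit false

namespace H7HG

open Finset Module

private theorem L1b_coe {E : Type} [NormedAddCommGroup E] [InnerProductSpace ℝ E] {ι : Type} [Fintype ι] [DecidableEq ι]
    {A : ι → Submodule ℝ E} (h : DirectSum.IsInternal A) {α : ι → Type} [∀ i, Fintype (α i)]
    (hV : OrthogonalFamily ℝ (fun i => A i) fun i => (A i).subtypeₗᵢ)
    (v : ∀ i, OrthonormalBasis (α i) ℝ (A i)) (a : Σ i, α i) :
    h.collectedOrthonormalBasis hV v a = (v a.1 a.2 : E) := by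
  simp [DirectSum.IsInternal.collectedOrthonormalBasis]

private theorem L1b_gen {E : Type} [NormedAddCommGroup E] [InnerProductSpace ℝ E] [FiniteDimensional ℝ E] {J : Type}
    [Fintype J] [DecidableEq J] (F : J → Submodule ℝ E)
    (hF : ∀ j l, j ≠ l → ∀ x ∈ F j, ∀ y ∈ F l, inner ℝ x y = 0)
    (q : J → E →ₗ[ℝ] E →ₗ[ℝ] ℝ) (hq : ∀ j x y, q j x y = q j y x) :
    ∃ (ι : Type) (_ : Fintype ι) (_ : DecidableEq ι) (b : OrthonormalBasis ι ℝ E) (lab : ι → Option J),
      (∀ x j, lab x = some j → b x ∈ F j) ∧ (∀ x, lab x = none → ∀ j, ∀ y ∈ F j, inner ℝ (b x) y = 0) ∧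
      ∀ x y, x ≠ y → ∀ j, lab x = some j → lab y = some j → q j (b x) (b y) = 0 := by
  classical
  obtain ⟨A, hA0, hA1⟩ : ∃ A : Option J → Submodule ℝ E, A none = (⨆ j, F j)ᗮ ∧ ∀ j, A (some j) = F j :=
    ⟨fun a => Option.casesOn a (⨆ j, F j)ᗮ F, rfl, fun _ => rfl⟩
  have hP : Pairwise (Function.onFun (fun U V : Submodule ℝ E => U ⟂ V) A) := by
    intro a c hac
    have key : ∀ j, A none ⟂ A (some j) := by
      intro j
      rw [hA0, hA1, Submodule.isOrtho_comm, Submodule.isOrtho_iff_inner_eq]
      intro x hx y hy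
      exact (Submodule.mem_orthogonal _ y).1 hy x (Submodule.mem_iSup_of_mem j hx)
    cases a with
    | none =>
      cases c with
      | none => exact absurd rfl hac
      | some j => exact key j
    | some i =>
      cases c with
      | none => exact (key i).symm
      | some j =>
        have hij : i ≠ j := fun h => hac (by rw [h])
        show A (some i) ⟂ A (some j)
        rw [hA1, hA1, Submodule.isOrtho_iff_inner_eq]
        intro x hx y hy
        exact hF i j hij x hx y hy
  have hV := OrthogonalFamily.of_pairwise hP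
  have hI : DirectSum.IsInternal A := by
    rw [hV.isInternal_iff, iSup_option]
    have h1 : (A none ⊔ ⨆ j, A (some j)) = ⊤ := by
      rw [hA0, sup_comm, iSup_congr hA1]
      exact Submodule.sup_orthogonal_of_hasOrthogonalProjection
    rw [h1, Submodule.top_orthogonal_eq_bot]
  have hb : ∀ a : Option J, ∃ b : OrthonormalBasis (Fin (finrank ℝ (A a))) ℝ (A a),
      ∀ j, a = some j → ∀ x y, x ≠ y → q j (b x : E) (b y : E) = 0 := by
    intro a
    cases a with
    | none => exact ⟨stdOrthonormalBasis ℝ _, fun j h => by cases h⟩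
    | some j =>
      obtain ⟨b, hb⟩ := diag (F := A (some j)) ((q j).domRestrict₁₂ (A (some j)) (A (some j))) (fun x y => by
        rw [LinearMap.domRestrict₁₂_apply, LinearMap.domRestrict₁₂_apply]
        exact hq j _ _)
      refine ⟨b, fun l hl x y hxy => ?_⟩
      cases hl
      have h := hb x y hxy
      rw [LinearMap.domRestrict₁₂_apply] at h
      exact h
  choose v hv using hb
  refine ⟨Σ a : Option J, Fin (finrank ℝ (A a)), inferInstance, inferInstance,
    hI.collectedOrthonormalBasis hV v, Sigma.fst, ?_, ?_, ?_⟩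
  · rintro ⟨a, i⟩ j h
    rw [L1b_coe]
    cases h
    rw [← hA1]
    exact (v (some j) i).2
  · rintro ⟨a, i⟩ h j y hy
    rw [L1b_coe]
    cases h
    have h1 : (v none i : E) ∈ (⨆ j, F j)ᗮ := by
      rw [← hA0]
      exact (v none i).2
    have h2 := (Submodule.mem_orthogonal _ _).1 h1 y (Submodule.mem_iSup_of_mem j hy)
    rw [real_inner_comm]
    exact h2
  · rintro ⟨a, i⟩ ⟨c, l⟩ hne j h1 h2
    rw [L1b_coe, L1b_coe]
    cases h1
    cases h2
    exact hv (some j) j rfl i l (fun h => hne (by rw [h]))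

/-- PROOF: the family `A : Option J → Submodule`, `A (some j) = F j`, `A none = (⨆ j, F j)ᗮ` is orthogonal and internal
(`OrthogonalFamily.isInternal_iff`: the orthogonal complement of the sum is `⊥`). On `A (some j)` take the basis of `diag` for the restriction of
`q j` (`LinearMap.domRestrict₁₂` or `(q j).comp ..`), on `A none` any orthonormal basis; `b = collectedOrthonormalBasis`, index type
`Σ a : Option J, Fin (finrank ℝ (A a))`, `lab = Sigma.fst`. (Or: helper14's H14D/SD.lean, simultaneous diagonalization of the projections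
and of the operators of the `q j`.) -/
theorem collect {K : ℕ} {J : Type} [Fintype J] [DecidableEq J] (F : J → Submodule ℝ (EuclideanSpace ℝ (Fin K)))
    (hF : ∀ j l, j ≠ l → ∀ x ∈ F j, ∀ y ∈ F l, inner ℝ x y = 0)
    (q : J → EuclideanSpace ℝ (Fin K) →ₗ[ℝ] EuclideanSpace ℝ (Fin K) →ₗ[ℝ] ℝ) (hq : ∀ j x y, q j x y = q j y x) :
    ∃ (ι : Type) (_ : Fintype ι) (_ : DecidableEq ι) (b : OrthonormalBasis ι ℝ (EuclideanSpace ℝ (Fin K))) (lab : ι → Option J),
      (∀ x j, lab x = some j → b x ∈ F j) ∧ (∀ x, lab x = none → ∀ j, ∀ y ∈ F j, inner ℝ (b x) y = 0) ∧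
      ∀ x y, x ≠ y → ∀ j, lab x = some j → lab y = some j → q j (b x) (b y) = 0 := by
  exact L1b_gen F hF q hq

end H7HG
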