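import Pool.Agent.Lib.H7HG.D

/-! # H7HG, chunk L4a: rotation -/

set_option autoImplicit false

namespace H7HG

open Finset Equiv Pool.Agent.H69Hopf

/-- The vector of the values of the forms at two basis vectors. -/
noncomputable def W {N K : ℕ} (w : Fin K → Fin N → Fin N → ℝ) (i j : Fin N) : EuclideanSpace ℝ (Fin K) :=
  WithLp.toLp 2 fun x => w x i j

/-- The rotated family. -/
noncomputable def rot {N K : ℕ} {ι : Type} [Fintype ι] (w : Fin K → Fin N → Fin N → ℝ)
    (b : OrthonormalBasis ι ℝ (EuclideanSpace ℝ (Fin K))) : ι → Fin N → Fin N → ℝ := fun x i j => inner ℝ (b x) (W w i j)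

/-- PROOF: `OrthonormalBasis.sum_inner_mul_inner`. -/
theorem rot_sum {N K : ℕ} {ι : Type} [Fintype ι] (w : Fin K → Fin N → Fin N → ℝ)
    (b : OrthonormalBasis ι ℝ (EuclideanSpace ℝ (Fin K))) (i j k l : Fin N) :
    ∑ x, rot w b x i j * rot w b x k l = ∑ x, w x i j * w x k l := by
  have h := b.sum_inner_mul_inner (W w i j) (W w k l)
  have h1 : ∀ x, inner ℝ (W w i j) (b x) = inner ℝ (b x) (W w i j) := fun x => real_inner_comm _ _
  simp only [h1] at h
  unfold rot
  rw [h]
  simp only [W, PiLp.inner_apply]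
  refine Finset.sum_congr rfl fun x _ => ?_
  simp [mul_comm]

theorem rot_skew {N K : ℕ} {ι : Type} [Fintype ι] {w : Fin K → Fin N → Fin N → ℝ} (h : ∀ x i j, w x i j = - w x j i)
    (b : OrthonormalBasis ι ℝ (EuclideanSpace ℝ (Fin K))) (x : ι) (i j : Fin N) : rot w b x i j = - rot w b x j i := by
  have h1 : W w i j = - W w j i := by
    ext y
    simp [W, h y i j]
  unfold rot
  rw [h1, inner_neg_right]

end H7HG
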