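import Pool.Agent.Lib.H7HG.A3a
import Pool.Agent.Lib.H14D.FE

/-! # H7HG, chunk M1a: the Gauss-Bonnet integrand -/

set_option autoImplicit false

namespace H7HG

open Finset Equiv Pool.Agent.H69Hopf

private theorem m1a_sf {N : ℕ} (p q i j : Fin N) :
    Pool.Agent.Lib.H14D.FE.sf (Pi.single p 1) (Pi.single q 1) i j = mm p q i j := by
  unfold Pool.Agent.Lib.H14D.FE.sf mm
  simp only [Pi.single_apply]
  ring

private theorem m1a_hh {N : ℕ} {ι : Type} (w : ι → Fin (2 * (N + 1)) → Fin (2 * (N + 1)) → ℝ)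
    (p q : Fin (2 * (N + 1))) (i : Fin (N + 1)) (x : ι) (κ : Fin N → ι) :
    hh w p q i (i.insertNth (α := fun _ => ι) x κ) =
      mp (n := N + 1) (Fin.cons (α := fun _ => Fin (2 * (N + 1)) → Fin (2 * (N + 1)) → ℝ) (mm p q)
        (fun j => w (κ j))) := by
  have h := Pool.Agent.Lib.H14D.FE.mp_insert i (mm p q) (fun j => w (κ j))
  refine Eq.trans ?_ h
  unfold hh
  change mp _ = mp _
  congr 1
  funext s
  by_cases hs : s = i
  · subst hs
    rw [Function.update_self, Fin.insertNth_apply_same]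
  · obtain ⟨j, hj⟩ := Fin.exists_succAbove_eq hs
    rw [Function.update_of_ne hs, ← hj, Fin.insertNth_apply_succAbove,
      Fin.insertNth_apply_succAbove]

private theorem m1a_sum {N : ℕ} {ι : Type} [Fintype ι]
    (w : ι → Fin (2 * (N + 1)) → Fin (2 * (N + 1)) → ℝ)
    (p q : Fin (2 * (N + 1))) (i : Fin (N + 1)) :
    ∑ κ : Fin (N + 1) → ι, hh w p q i κ ^ 2 = (Fintype.card ι : ℝ) * ∑ κ : Fin N → ι,
      mp (n := N + 1) (Fin.cons (α := fun _ => Fin (2 * (N + 1)) → Fin (2 * (N + 1)) → ℝ) (mm p q)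
        (fun j => w (κ j))) ^ 2 := by
  rw [← Equiv.sum_comp (Fin.insertNthEquiv (fun _ => ι) i) (fun κ => hh w p q i κ ^ 2),
    Fintype.sum_prod_type]
  have h : ∀ (x : ι) (κ : Fin N → ι),
      hh w p q i ((Fin.insertNthEquiv (fun _ => ι) i) (x, κ)) ^ 2 =
      mp (n := N + 1) (Fin.cons (α := fun _ => Fin (2 * (N + 1)) → Fin (2 * (N + 1)) → ℝ) (mm p q)
        (fun j => w (κ j))) ^ 2 := fun x κ => by
    rw [← m1a_hh w p q i x κ]
    rfl
  simp only [h]
  rw [Finset.sum_const, Finset.card_univ, nsmul_eq_mul]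

/-- PROOF: `Pool.Agent.Lib.H14D.FE.gb_simple` (for `n = N + 1`; `n = 0` is impossible because of `p`), `a = Pi.single p 1`, `b = Pi.single q 1`
(`sf a b = mm p q`), its `mp` is `H7HG.mp` (`rfl`); and `Σ_i Σ_κ hh i κ ^ 2 = card ι * (N + 1) * Σ_(κ : Fin N → ι) mp (Fin.cons (mm p q)
(w ∘ κ)) ^ 2` (`FE.mp_insert`, `Fin.insertNthEquiv`: `κ = i.insertNth x κ'`, `update (w ∘ κ) i m = i.insertNth m (w ∘ κ')`). -/
theorem gb_hh {n : ℕ} {ι : Type} [Fintype ι] {w : ι → Fin (2 * n) → Fin (2 * n) → ℝ} {p q : Fin (2 * n)} (R : Arr (2 * n))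
    (hR : ∀ i j k l, R i j k l = mm p q i j * mm p q k l - ∑ x, w x i j * w x k l) :
    (Fintype.card ι : ℝ) * ((-1) ^ n * gaussBonnet n R) = (Fintype.card ι : ℝ) * ∑ κ : Fin n → ι, mp (fun s => w (κ s)) ^ 2 -
      ∑ i, ∑ κ : Fin n → ι, hh w p q i κ ^ 2 := by
  rcases n with _ | N
  · exact absurd p.2 (by omega)
  · have h := Pool.Agent.Lib.H14D.FE.gb_simple R (Pi.single p 1) (Pi.single q 1) w (by
      intro i j k l
      rw [m1a_sf, m1a_sf]
      exact hR i j k l)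
    have hs : Pool.Agent.Lib.H14D.FE.sf (Pi.single p 1 : Fin (2 * (N + 1)) → ℝ) (Pi.single q 1) =
        mm p q := by
      funext i j
      exact m1a_sf p q i j
    rw [hs] at h
    rw [h]
    simp only [m1a_sum]
    rw [Finset.sum_const, Finset.card_univ, Fintype.card_fin, nsmul_eq_mul]
    change (Fintype.card ι : ℝ) * (∑ κ : Fin (N + 1) → ι, mp (n := N + 1) (fun i => w (κ i)) ^ 2 -
        (N + 1 : ℝ) * ∑ κ : Fin N → ι, mp (n := N + 1)
          (Fin.cons (α := fun _ => Fin (2 * (N + 1)) → Fin (2 * (N + 1)) → ℝ) (mm p q)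
            (fun i => w (κ i))) ^ 2) = _
    push_cast
    ring

end H7HG
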