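import Pool.Agent.Lib.H7HG.M1a
import Pool.Agent.Lib.H7HG.A7b

/-! # H7HG, chunk M1b: the sign -/

set_option autoImplicit false

namespace H7HG

open Finset Equiv Pool.Agent.H69Hopf

/-- PROOF: `core` and `gb_hh`; if `ι` is empty, `hK` at `x = e_p`, `y = e_q` is `1 ≤ 0`. -/
theorem gb_nonneg {n : ℕ} {ι : Type} [Fintype ι] [DecidableEq ι] {w : ι → Fin (2 * n) → Fin (2 * n) → ℝ} {p q : Fin (2 * n)}
    {bk : Fin (2 * n) → ℕ} {bl : ι → ℕ} (h : Blk w p q bk bl)
    (hK : ∀ x y, vv (mm p q) x y ^ 2 ≤ ∑ k, vv (w k) x y ^ 2) (R : Arr (2 * n))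
    (hR : ∀ i j k l, R i j k l = mm p q i j * mm p q k l - ∑ x, w x i j * w x k l) :
    0 ≤ (-1) ^ n * gaussBonnet n R := by
  have h1 := gb_hh (w := w) (p := p) (q := q) R hR
  have h2 := core h hK
  rcases Nat.eq_zero_or_pos (Fintype.card ι) with hc | hc
  · exfalso
    have he : IsEmpty ι := Fintype.card_eq_zero_iff.1 hc
    have h3 := hK (Pi.single p 1 + 0) (Pi.single q 1 + 0)
    rw [vv_mm h.ne rfl rfl rfl rfl, Fintype.sum_empty] at h3
    norm_num at h3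
  · have hc' : (0 : ℝ) < (Fintype.card ι : ℝ) := by exact_mod_cast hc
    refine (mul_nonneg_iff_of_pos_left hc').1 ?_
    rw [h1]
    exact sub_nonneg.2 h2

end H7HG
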