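import Pool.Agent.Lib.H7HG.M2a
import Pool.Agent.Lib.H7HG.A7b

/-! # H7HG, chunk M2b: the strict core inequality -/

set_option autoImplicit false

namespace H7HG

open Finset Equiv Pool.Agent.H69Hopf

private theorem indep_pq {N : ℕ} {p q : Fin N} (hpq : p ≠ q) {u v : Fin N → ℝ} (hu : u p = 0) (hu' : u q = 0)
    (hv : v p = 0) (hv' : v q = 0) :
    LinearIndependent ℝ ![(Pi.single p 1 + u : Fin N → ℝ), Pi.single q 1 + v] := by
  rw [LinearIndependent.pair_iff]
  intro s t hst
  have h1 := congrFun hst p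
  have h2 := congrFun hst q
  simp only [Pi.add_apply, Pi.smul_apply, smul_eq_mul, Pi.single_eq_same, Pi.zero_apply, hu, hu', hv, hv',
    Pi.single_eq_of_ne hpq, Pi.single_eq_of_ne hpq.symm] at h1 h2
  constructor
  · linarith
  · linarith

private theorem term_lt {n : ℕ} {ι : Type} [Fintype ι] [DecidableEq ι] {w : ι → Fin (2 * n) → Fin (2 * n) → ℝ}
    {p q : Fin (2 * n)} {bk : Fin (2 * n) → ℕ} {bl : ι → ℕ} (h : Blk w p q bk bl)
    (hK : ∀ x y : Fin (2 * n) → ℝ, LinearIndependent ℝ ![x, y] → vv (mm p q) x y ^ 2 < ∑ k, vv (w k) x y ^ 2)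
    {i : Fin n} {κ : Fin n → ι} (hne : hh w p q i κ ≠ 0) :
    hh w p q i κ ^ 2 < ∑ x, (mp (fun s => w (Function.update κ i x s)) /
      ((univ.filter fun s => Function.update κ i x s = Function.update κ i x i).card : ℝ)) ^ 2 := by
  obtain ⟨u, hup, huq, hu⟩ := exists_vec h hne p
  obtain ⟨v, hvp, hvq, hv⟩ := exists_vec h hne q
  have hdet : (EE p q u v).det = 1 := det_EE h.ne hup huq hvp hvq
  have hB : Blk (fun x => tr (EE p q u v) (w x)) p q bk bl := blk_tr h u v
  have hmp : ∀ κ' : Fin n → ι, mp (fun s => tr (EE p q u v) (w (κ' s))) = mp (fun s => w (κ' s)) := by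
    intro κ'
    have h1 := mp_tr (EE p q u v) (fun s => w (κ' s))
    rw [hdet, one_mul] at h1
    exact h1
  have hhh : ∀ κ' : Fin n → ι, hh (fun x => tr (EE p q u v) (w x)) p q i κ' = hh w p q i κ' := by
    intro κ'
    have h1 := mp_tr (EE p q u v) (Function.update (fun s => w (κ' s)) i (mm p q))
    rw [hdet, one_mul] at h1
    unfold hh
    rw [← h1]
    have h2 : Function.update (fun s => tr (EE p q u v) (w (κ' s))) i (mm p q) =
        fun s => tr (EE p q u v) (Function.update (fun s => w (κ' s)) i (mm p q) s) := by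
      funext s
      by_cases hs : s = i
      · subst hs
        rw [Function.update_self, Function.update_self, tr_mm h.ne hup huq hvp hvq]
      · rw [Function.update_of_ne hs, Function.update_of_ne hs]
    rw [h2]
  have hterm : ∀ x : ι, (mp (fun s => w (Function.update κ i x s)) /
      ((univ.filter fun s => Function.update κ i x s = Function.update κ i x i).card : ℝ)) ^ 2 =
      hh w p q i κ ^ 2 * vv (w x) (Pi.single p 1 + u) (Pi.single q 1 + v) ^ 2 := by
    intro x
    have hnx : hh (fun x => tr (EE p q u v) (w x)) p q i (Function.update κ i x) ≠ 0 := by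
      rw [hh_update, hhh]
      exact hne
    have hAd : Ad (fun x => tr (EE p q u v) (w x)) p q bk bl i (Function.update κ i x) := by
      intro s hs c hcp hcq hc
      rw [Function.update_of_ne hs] at hc ⊢
      exact ⟨(tr_pc (w (κ s)) h.ne hcp hcq).trans (hu s hs c hcp hcq hc),
        (tr_qc (w (κ s)) h.ne hcp hcq).trans (hv s hs c hcp hcq hc)⟩
    have hk := key hB hnx hAd
    rw [hmp, hh_update, hhh] at hk
    have hc : ((univ.filter fun s => Function.update κ i x s = Function.update κ i x i).card : ℝ) ≠ 0 := by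
      have h1 : 0 < (univ.filter fun s => Function.update κ i x s = Function.update κ i x i).card :=
        Finset.card_pos.2 ⟨i, Finset.mem_filter.2 ⟨Finset.mem_univ _, rfl⟩⟩
      exact_mod_cast h1.ne'
    rw [hk]
    have h3 : tr (EE p q u v) (w (Function.update κ i x i)) p q =
        vv (w x) (Pi.single p 1 + u) (Pi.single q 1 + v) := by
      rw [Function.update_self]
      exact tr_pq h.ne huq hvp (w x)
    rw [h3]
    rw [mul_assoc, mul_div_cancel_left₀ _ hc]
    ring
  calc hh w p q i κ ^ 2 = hh w p q i κ ^ 2 * vv (mm p q) (Pi.single p 1 + u) (Pi.single q 1 + v) ^ 2 := by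
        rw [vv_mm h.ne hup huq hvp hvq]
        ring
    _ < hh w p q i κ ^ 2 * ∑ k, vv (w k) (Pi.single p 1 + u) (Pi.single q 1 + v) ^ 2 := by
        have h0 : 0 < hh w p q i κ ^ 2 := by positivity
        exact mul_lt_mul_of_pos_left (hK _ _ (indep_pq h.ne hup huq hvp hvq)) h0
    _ = ∑ x, (mp (fun s => w (Function.update κ i x s)) /
      ((univ.filter fun s => Function.update κ i x s = Function.update κ i x i).card : ℝ)) ^ 2 := by
        rw [Finset.mul_sum]
        exact (Finset.sum_congr rfl fun x _ => hterm x).symm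

private theorem sum_upd {n : ℕ} {ι : Type} [Fintype ι] [DecidableEq ι] (i : Fin n) (F : (Fin n → ι) → ℝ) :
    ∑ κ : Fin n → ι, ∑ x : ι, F (Function.update κ i x) = (Fintype.card ι : ℝ) * ∑ κ : Fin n → ι, F κ := by
  let e : ((Fin n → ι) × ι) ≃ ((Fin n → ι) × ι) :=
    { toFun := fun r => (Function.update r.1 i r.2, r.1 i)
      invFun := fun r => (Function.update r.1 i r.2, r.1 i)
      left_inv := fun r => by
        refine Prod.ext ?_ ?_
        · simp only [Function.update_idem, Function.update_eq_self]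
        · simp only [Function.update_self]
      right_inv := fun r => by
        refine Prod.ext ?_ ?_
        · simp only [Function.update_idem, Function.update_eq_self]
        · simp only [Function.update_self] }
  have h1 : ∑ κ : Fin n → ι, ∑ x : ι, F (Function.update κ i x) = ∑ r : (Fin n → ι) × ι, F (e r).1 := by
    rw [Fintype.sum_prod_type]
    exact Finset.sum_congr rfl fun κ _ => Finset.sum_congr rfl fun x _ => rfl
  rw [h1, Equiv.sum_comp e (fun r : (Fin n → ι) × ι => F r.1), Fintype.sum_prod_type]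
  simp only [Finset.sum_const, Finset.card_univ, nsmul_eq_mul]
  rw [Finset.mul_sum]

/-- PROOF: if some `hh w p q i κ ≠ 0`: `term_lt` for this `(i, κ)`, so `core` is strict. Otherwise `Σ Σ hh ^ 2 = 0` and
`exists_mp_ne`. -/
theorem core_lt {n : ℕ} {ι : Type} [Fintype ι] [DecidableEq ι] {w : ι → Fin (2 * n) → Fin (2 * n) → ℝ} {p q : Fin (2 * n)}
    {bk : Fin (2 * n) → ℕ} {bl : ι → ℕ} (h : Blk w p q bk bl)
    (hK : ∀ x y : Fin (2 * n) → ℝ, LinearIndependent ℝ ![x, y] → vv (mm p q) x y ^ 2 < ∑ k, vv (w k) x y ^ 2) :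
    ∑ i, ∑ κ : Fin n → ι, hh w p q i κ ^ 2 < (Fintype.card ι : ℝ) * ∑ κ : Fin n → ι, mp (fun s => w (κ s)) ^ 2 := by
  classical
  by_cases hex : ∃ i : Fin n, ∃ κ : Fin n → ι, hh w p q i κ ≠ 0
  · obtain ⟨i0, κ0, h0⟩ := hex
    have hle : ∀ i : Fin n, ∀ κ : Fin n → ι, hh w p q i κ ^ 2 ≤ ∑ x, (fun κ' : Fin n → ι => if hh w p q i κ' ≠ 0 then
        (mp (fun s => w (κ' s)) / ((univ.filter fun s => κ' s = κ' i).card : ℝ)) ^ 2 else 0) (Function.update κ i x) := by
      intro i κ
      by_cases hi : hh w p q i κ ≠ 0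
      · refine le_trans (term_lt h hK hi).le (le_of_eq ?_)
        apply Finset.sum_congr rfl
        intro x _
        have hx : hh w p q i (Function.update κ i x) ≠ 0 := by
          rw [hh_update]
          exact hi
        simp only
        rw [if_pos hx]
      · have h0 : hh w p q i κ = 0 := by
          by_contra hc
          exact hi hc
        rw [h0]
        have : (0 : ℝ) ^ 2 = 0 := by norm_num
        rw [this]
        apply Finset.sum_nonneg
        intro x _
        simp only
        split_ifs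
        · positivity
        · exact le_refl _
    have hlt : hh w p q i0 κ0 ^ 2 < ∑ x, (fun κ' : Fin n → ι => if hh w p q i0 κ' ≠ 0 then
        (mp (fun s => w (κ' s)) / ((univ.filter fun s => κ' s = κ' i0).card : ℝ)) ^ 2 else 0)
          (Function.update κ0 i0 x) := by
      refine lt_of_lt_of_eq (term_lt h hK h0) ?_
      apply Finset.sum_congr rfl
      intro x _
      have hx : hh w p q i0 (Function.update κ0 i0 x) ≠ 0 := by
        rw [hh_update]
        exact h0
      simp only
      rw [if_pos hx]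
    have h1 : ∀ i : Fin n, ∑ κ : Fin n → ι, hh w p q i κ ^ 2 ≤
        (Fintype.card ι : ℝ) * ∑ κ : Fin n → ι, (if hh w p q i κ ≠ 0 then
          (mp (fun s => w (κ s)) / ((univ.filter fun s => κ s = κ i).card : ℝ)) ^ 2 else 0) := by
      intro i
      rw [← sum_upd i (fun κ : Fin n → ι => if hh w p q i κ ≠ 0 then
          (mp (fun s => w (κ s)) / ((univ.filter fun s => κ s = κ i).card : ℝ)) ^ 2 else 0)]
      exact Finset.sum_le_sum fun κ _ => hle i κ
    have h1' : ∑ κ : Fin n → ι, hh w p q i0 κ ^ 2 <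
        (Fintype.card ι : ℝ) * ∑ κ : Fin n → ι, (if hh w p q i0 κ ≠ 0 then
          (mp (fun s => w (κ s)) / ((univ.filter fun s => κ s = κ i0).card : ℝ)) ^ 2 else 0) := by
      rw [← sum_upd i0 (fun κ : Fin n → ι => if hh w p q i0 κ ≠ 0 then
          (mp (fun s => w (κ s)) / ((univ.filter fun s => κ s = κ i0).card : ℝ)) ^ 2 else 0)]
      exact Finset.sum_lt_sum (fun κ _ => hle i0 κ) ⟨κ0, Finset.mem_univ _, hlt⟩
    calc ∑ i, ∑ κ : Fin n → ι, hh w p q i κ ^ 2
        < ∑ i : Fin n, (Fintype.card ι : ℝ) * ∑ κ : Fin n → ι, (if hh w p q i κ ≠ 0 then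
          (mp (fun s => w (κ s)) / ((univ.filter fun s => κ s = κ i).card : ℝ)) ^ 2 else 0) :=
          Finset.sum_lt_sum (fun i _ => h1 i) ⟨i0, Finset.mem_univ _, h1'⟩
      _ = (Fintype.card ι : ℝ) * ∑ κ : Fin n → ι, ∑ i : Fin n, (if hh w p q i κ ≠ 0 then
          (mp (fun s => w (κ s)) / ((univ.filter fun s => κ s = κ i).card : ℝ)) ^ 2 else 0) := by
          rw [← Finset.mul_sum, Finset.sum_comm]
      _ ≤ (Fintype.card ι : ℝ) * ∑ κ : Fin n → ι, mp (fun s => w (κ s)) ^ 2 := by
          apply mul_le_mul_of_nonneg_left _ (Nat.cast_nonneg _)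
          apply Finset.sum_le_sum
          intro κ _
          have h2 : ∑ i : Fin n, (if hh w p q i κ ≠ 0 then
              (mp (fun s => w (κ s)) / ((univ.filter fun s => κ s = κ i).card : ℝ)) ^ 2 else 0) =
              mp (fun s => w (κ s)) ^ 2 * ∑ i, (if hh w p q i κ ≠ 0 then
                (1 / ((univ.filter fun s => κ s = κ i).card : ℝ)) ^ 2 else 0) := by
            rw [Finset.mul_sum]
            apply Finset.sum_congr rfl
            intro i _
            split_ifs
            · ring
            · ring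
          rw [h2]
          have h3 := mul_le_mul_of_nonneg_left (good_le h κ) (sq_nonneg (mp (fun s => w (κ s))))
          rw [mul_one] at h3
          exact h3
  · push Not at hex
    have h1 : ∑ i, ∑ κ : Fin n → ι, hh w p q i κ ^ 2 = 0 :=
      Finset.sum_eq_zero fun i _ => Finset.sum_eq_zero fun κ _ => by rw [hex i κ]; norm_num
    rw [h1]
    have hpos : ∀ x y : Fin (2 * n) → ℝ, LinearIndependent ℝ ![x, y] → 0 < ∑ k, vv (w k) x y ^ 2 :=
      fun x y hxy => lt_of_le_of_lt (sq_nonneg _) (hK x y hxy)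
    obtain ⟨κ, hκ⟩ := exists_mp_ne h.skew hpos
    have h2 : 0 < ∑ κ : Fin n → ι, mp (fun s => w (κ s)) ^ 2 := by
      refine Finset.sum_pos' (fun κ _ => sq_nonneg _) ⟨κ, Finset.mem_univ _, ?_⟩
      positivity
    have h3 : 0 < (Fintype.card ι : ℝ) := by
      have hn : 0 < n := by
        have := p.2
        omega
      have : Nonempty ι := ⟨κ ⟨0, hn⟩⟩
      exact_mod_cast Fintype.card_pos
    exact mul_pos h3 h2

end H7HG
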