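import Pool.Agent.Lib.H7HG.L4b
import Pool.Agent.Lib.H7HG.L5
import Pool.Agent.Lib.H46X.B3
import Pool.Agent.Lib.H79G.F1

/-! # H7HG, chunk M3a: the class SplitGen -/

set_option autoImplicit false

namespace H7HG

open Finset Equiv Pool.Agent.H69Hopf Pool.Agent.H46X H31R H79G

/-- In some basis (the columns of `E`): the curvature operator of `R` is at most the square of `m = e^p ∧ e^q`, and on the span
of the other basis vectors, which are divided into blocks (`bk` = number of the block), the component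
`R i j k l` is zero unless `i, j, k, l` are in the same block; on a block of more than four vectors `R = - v ⊗ v` for a two-form `v`. -/
def SplitGen {N : ℕ} (R : Arr N) : Prop :=
  ∃ (E : Matrix (Fin N) (Fin N) ℝ) (p q : Fin N) (bk : Fin N → ℕ), E.det ≠ 0 ∧ p ≠ q ∧
    (∀ v : Matrix (Fin N) (Fin N) ℝ, v.transpose = -v →
      ∑ i, ∑ j, ∑ k, ∑ l, frameR R E i j k l * v i j * v k l ≤ (∑ i, ∑ j, mm p q i j * v i j) ^ 2) ∧
    (∀ c, (B p q bk c).card ≤ 4 ∨ ∃ v : Fin N → Fin N → ℝ, ∀ i j k l, i ∈ B p q bk c → j ∈ B p q bk c →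
      k ∈ B p q bk c → l ∈ B p q bk c → frameR R E i j k l = -(v i j * v k l)) ∧
    ∀ i j k l, i ≠ p → i ≠ q → j ≠ p → j ≠ q → k ≠ p → k ≠ q → l ≠ p → l ≠ q →
      frameR R E i j k l ≠ 0 → bk i = bk j ∧ bk j = bk k ∧ bk k = bk l

theorem exists_data {n : ℕ} {R : Arr (2 * n)} (hA : IsAlgCurv R) (hS : SplitGen R) :
    ∃ (E : Matrix (Fin (2 * n)) (Fin (2 * n)) ℝ) (p q : Fin (2 * n)) (bk : Fin (2 * n) → ℕ) (ι : Type) (_ : Fintype ι)
      (_ : DecidableEq ι) (w : ι → Fin (2 * n) → Fin (2 * n) → ℝ) (bl : ι → ℕ), E.det ≠ 0 ∧ Blk w p q bk bl ∧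
      (∀ i j k l, frameR R E i j k l = mm p q i j * mm p q k l - ∑ x, w x i j * w x k l) ∧
      ∀ x y, ∑ k, vv (w k) x y ^ 2 - vv (mm p q) x y ^ 2 = - ev R (E.mulVec x) (E.mulVec y) (E.mulVec x) (E.mulVec y) := by
  obtain ⟨E, p, q, bk, hdet, hpq, hop, hsize, hblk⟩ := hS
  have hA' : IsAlgCurv (frameR R E) := frame_algCurv hA E
  set R' := frameR R E with hR'
  have hsk : ∀ i j k l, R' i j k l = - R' i j l k := by
    intro i j k l
    rw [hA'.pair i j k l, hA'.skew k l i j, hA'.pair l k i j]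
  obtain ⟨K, w0, hs0, hw0⟩ := psd_sum (fun i j k l => mm p q i j * mm p q k l - R' i j k l)
    (fun i j k l => by
      show mm p q i j * mm p q k l - R' i j k l = -(mm p q j i * mm p q k l - R' j i k l)
      rw [mm_skew p q i j, hA'.skew i j k l]; ring)
    (fun i j k l => by
      show mm p q i j * mm p q k l - R' i j k l = -(mm p q i j * mm p q l k - R' i j l k)
      rw [mm_skew p q k l, hsk i j k l]; ring)
    (fun i j k l => by
      show mm p q i j * mm p q k l - R' i j k l = mm p q k l * mm p q i j - R' k l i j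
      rw [hA'.pair i j k l]; ring)
    (fun v hv => by
      have h1 := hop v hv
      have h2 : ∑ i, ∑ j, ∑ k, ∑ l, (mm p q i j * mm p q k l - R' i j k l) * v i j * v k l =
          (∑ i, ∑ j, mm p q i j * v i j) ^ 2 - ∑ i, ∑ j, ∑ k, ∑ l, R' i j k l * v i j * v k l := by
        rw [sq]
        simp only [Finset.sum_mul, Finset.mul_sum, ← Finset.sum_sub_distrib]
        refine Finset.sum_congr rfl fun i _ => Finset.sum_congr rfl fun j _ =>
          Finset.sum_congr rfl fun k _ => Finset.sum_congr rfl fun l _ => ?_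
        ring
      rw [h2]
      linarith)
  have hsize' : ∀ j, (B p q bk j).card ≤ 4 ∨ ∃ v : Fin (2 * n) → Fin (2 * n) → ℝ, ∀ a b c d, a ∈ B p q bk j →
      b ∈ B p q bk j → c ∈ B p q bk j → d ∈ B p q bk j → ∑ x, w0 x a b * w0 x c d = v a b * v c d := by
    intro j
    rcases hsize j with h | ⟨v, hv⟩
    · exact Or.inl h
    · refine Or.inr ⟨v, fun a b c d ha hb hc hd => ?_⟩
      rw [← hw0 a b c d, hv a b c d ha hb hc hd]
      obtain ⟨-, ha1, ha2, -⟩ := Finset.mem_filter.1 ha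
      simp [mm, ha1, ha2]
  obtain ⟨ι, _, _, w, bl, hB, hw⟩ := exists_blk hs0 hpq hsize' (fun i j k l h1 h2 h3 h4 h5 h6 h7 h8 hne => by
    refine hblk i j k l h1 h2 h3 h4 h5 h6 h7 h8 ?_
    intro h0
    apply hne
    rw [← hw0 i j k l, h0]
    simp [mm, h1, h2, h3, h4])
  have hR2 : ∀ i j k l, R' i j k l = mm p q i j * mm p q k l - ∑ x, w x i j * w x k l := by
    intro i j k l
    rw [hw i j k l, ← hw0 i j k l]
    ring
  refine ⟨E, p, q, bk, ι, inferInstance, inferInstance, w, bl, hdet, hB, hR2, fun x y => ?_⟩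
  rw [← sec_frame, ← hR']
  have h1 : ∀ f : Fin (2 * n) → Fin (2 * n) → ℝ, vv f x y ^ 2 =
      ∑ i, ∑ j, ∑ k, ∑ l, (f i j * f k l) * x i * y j * x k * y l := by
    intro f
    unfold vv
    rw [sq]
    simp only [Finset.sum_mul, Finset.mul_sum]
    refine Finset.sum_congr rfl fun i _ => Finset.sum_congr rfl fun j _ =>
      Finset.sum_congr rfl fun k _ => Finset.sum_congr rfl fun l _ => ?_
    ring
  have h2 : ∑ k, vv (w k) x y ^ 2 =
      ∑ i, ∑ j, ∑ k, ∑ l, (∑ r, w r i j * w r k l) * x i * y j * x k * y l := by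
    simp only [h1, Finset.sum_mul]
    rw [Finset.sum_comm]
    refine Finset.sum_congr rfl fun i _ => ?_
    rw [Finset.sum_comm]
    refine Finset.sum_congr rfl fun j _ => ?_
    rw [Finset.sum_comm]
    refine Finset.sum_congr rfl fun k _ => ?_
    rw [Finset.sum_comm]
  rw [h2, h1 (mm p q)]
  unfold ev
  rw [← Finset.sum_sub_distrib, ← Finset.sum_neg_distrib]
  refine Finset.sum_congr rfl fun i _ => ?_
  rw [← Finset.sum_sub_distrib, ← Finset.sum_neg_distrib]
  refine Finset.sum_congr rfl fun j _ => ?_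
  rw [← Finset.sum_sub_distrib, ← Finset.sum_neg_distrib]
  refine Finset.sum_congr rfl fun k _ => ?_
  rw [← Finset.sum_sub_distrib, ← Finset.sum_neg_distrib]
  refine Finset.sum_congr rfl fun l _ => ?_
  rw [hR2 i j k l]
  ring

end H7HG
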