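import Pool.Agent.Lib.H7HG.M3a
import Pool.Agent.Lib.H7HG.M1b
import Pool.Agent.Lib.H7HG.M2b

/-! # H7HG, file Main: the pointwise theorems -/

set_option autoImplicit false

namespace H7HG

open Finset Equiv Pool.Agent.H69Hopf Pool.Agent.H46X H31R H79G

/-- The pointwise theorem. PROOF: `exists_data`, `gb_nonneg`, `gb_frameR`. -/
theorem splitGen_nonneg {n : ℕ} {R : Arr (2 * n)} (hA : IsAlgCurv R) (hK : ∀ u v, ev R u v u v ≤ 0) (hS : SplitGen R) :
    0 ≤ (-1) ^ n * Pool.Agent.H69Hopf.gaussBonnet n R := by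
  obtain ⟨E, p, q, bk, ι, _, _, w, bl, hdet, hB, hR, hv⟩ := exists_data hA hS
  have h1 := gb_nonneg hB (fun x y => by
    have h2 := hv x y
    have h3 := hK (E.mulVec x) (E.mulVec y)
    linarith) (frameR R E) hR
  rw [gb_frameR, mul_left_comm] at h1
  have h2 : 0 < E.det ^ 2 := by positivity
  exact nonneg_of_mul_nonneg_right h1 h2

/-- The pointwise theorem, strict form. PROOF: `exists_data`, `core_lt`, `gb_hh`, `gb_frameR`. -/
theorem splitGen_pos {n : ℕ} {R : Arr (2 * n)} (hA : IsAlgCurv R)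
    (hK : ∀ u v, LinearIndependent ℝ ![u, v] → ev R u v u v < 0) (hS : SplitGen R) :
    0 < (-1) ^ n * Pool.Agent.H69Hopf.gaussBonnet n R := by
  obtain ⟨E, p, q, bk, ι, _, _, w, bl, hdet, hB, hR, hv⟩ := exists_data hA hS
  have h1 := core_lt hB (fun x y hxy => by
    have h2 := hv x y
    have h4 : LinearIndependent ℝ ![E.mulVec x, E.mulVec y] := by
      have hinj : Function.Injective E.mulVec := Matrix.mulVec_injective_iff_isUnit.2
        ((Matrix.isUnit_iff_isUnit_det E).2 (isUnit_iff_ne_zero.2 hdet))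
      have h5 := hxy.map' (Matrix.mulVecLin E) (LinearMap.ker_eq_bot.2 hinj)
      have h6 : (⇑(Matrix.mulVecLin E) ∘ ![x, y]) = ![E.mulVec x, E.mulVec y] := by
        funext i
        fin_cases i <;> rfl
      rwa [h6] at h5
    have h3 := hK (E.mulVec x) (E.mulVec y) h4
    linarith)
  have h2 := gb_hh (p := p) (q := q) (w := w) (frameR R E) hR
  have h3 : 0 < (Fintype.card ι : ℝ) * ((-1) ^ n * Pool.Agent.H69Hopf.gaussBonnet n (frameR R E)) := by
    rw [h2]
    linarith
  have h4 : 0 < (-1) ^ n * Pool.Agent.H69Hopf.gaussBonnet n (frameR R E) :=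
    (pos_iff_pos_of_mul_pos h3).1 (lt_of_le_of_ne (Nat.cast_nonneg _) fun h => by
      rw [← h, zero_mul] at h3
      exact lt_irrefl _ h3)
  rw [gb_frameR, mul_left_comm] at h4
  exact (pos_iff_pos_of_mul_pos h4).1 (by positivity)

end H7HG
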